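import Pool.Agent.H39R2.GonP.Bridge

/-!
# Project W3: the last two cohomology groups (adaptation of `Pool/Agent/H39R2/Gon/E2.lean`)
-/

set_option autoImplicit false

namespace Y775.W3

open H39Gon H39Gon.E2
open scoped TensorProduct

section Main

variable (k : Type) [Field k] (p : ℕ) [Fact p.Prime] [CharP k p]
    (hk : ∀ c : k, ∃ r : ℕ, 1 ≤ r ∧ c ^ p ^ r = c)
    (hsd : SpanDual (RatFunc k) 1) (D : H39Gon.Differentials (RatFunc k))

include hk in
theorem step_d0 (m : ℕ) (φ : TQ (RatFunc k) (m + 3) 0 →ₗ[ℚ] ℚ) :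
    ∃ ψ : TQ (RatFunc k) (m + 2) (0 + 1) →ₗ[ℚ] ℚ, ∀ v, φ v = ψ (D.d m 0 v) := by
  obtain ⟨Ψ, hΨ, hev⟩ := ev_surj k p hk (m + 1) (toTheta φ) (fun r hr => toTheta_R φ r hr)
  have hnone : ∀ y, φ (tq (RatFunc k) (m + 3) 0 none y) = 0 := by
    intro y
    rw [← toTheta_apply, hev, ev_none]
    rfl
  have hsome : ∀ x y, φ (tq (RatFunc k) (m + 3) 0 (some x) y) =
      Ψ (cl (1 - x)) (cl x) (fun _ => cl x) y := by
    intro x y
    rw [← toTheta_apply, hev, ev_some]
  obtain ⟨Q', hQ1, hQ2⟩ := koszul_step m 0 (qOf Ψ) (by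
      intro s
      rw [qOf_apply, hΨ]
      rfl) (by
      intro i hi
      omega)
  refine ⟨ofTheta (theta' Q') (theta'_R Q' hQ1), fun v => ?_⟩
  have h2 : φ = (ofTheta (theta' Q') (theta'_R Q' hQ1)) ∘ₗ (D.d m 0) := by
    apply text
    intro x y
    rw [LinearMap.comp_apply]
    rcases x with _ | x
    · rw [hnone, D.d_inf, map_zero]
    · by_cases hx : x = 0
      · subst hx
        rw [D.d_zero, map_zero, hsome, cl_zero, map_zero]
        rfl
      · rw [D.d_some m 0 x y hx, ofTheta_apply, theta'_some, hQ2, qOf_apply, hsome]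
  rw [h2]
  rfl

include hk hsd in
theorem step_e' (j : ℕ) (φ : TQ (RatFunc k) 2 j →ₗ[ℚ] ℚ)
    (hφ : ∀ (i : ℕ) (hi : j = i + 1) (x : RatFunc k) (y : Fin i → UV (RatFunc k)), x ≠ 0 →
      φ (tq (RatFunc k) 2 j (some x)
        ((Fin.cons (cl x) y : Fin (i + 1) → UV (RatFunc k)) ∘ Fin.cast hi)) = 0) :
    ∃ ψ : LQ (RatFunc k) (j + 2) →ₗ[ℚ] ℚ, ∀ v, φ v = ψ (D.e j v) := by
  obtain ⟨Ψ, hΨ, hev⟩ := ev_surj k p hk 0 (toTheta φ) (fun r hr => toTheta_R φ r hr)
  have hnone : ∀ y, φ (tq (RatFunc k) 2 j none y) = 0 := by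
    intro y
    rw [← toTheta_apply, hev, ev_none]
    rfl
  have hsome : ∀ x y, φ (tq (RatFunc k) 2 j (some x) y) =
      Ψ (cl (1 - x)) (cl x) (fun _ => cl x) y := by
    intro x y
    rw [← toTheta_apply, hev, ev_some]
  let Q : UV (RatFunc k) →ₗ[ℤ] (UV (RatFunc k) →ₗ[ℤ] (UV (RatFunc k) [⋀^Fin j]→ₗ[ℤ] ℚ)) :=
    LinearMap.mk₂ ℤ (fun s v => Ψ v s Fin.elim0)
      (fun a b c => by simp) (fun a b c => by simp) (fun a b c => by simp)
      (fun a b c => by simp)
  have hQ : ∀ s v, Q s v = Ψ v s (fun _ => s) := by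
    intro s v
    change Ψ v s Fin.elim0 = _
    congr 1
    exact Subsingleton.elim _ _
  obtain ⟨Θ, hΘ⟩ := koszul_last j Q (by
      intro s
      rw [hQ, hΨ]
      rfl) (by
      intro i hi s v y
      subst hi
      have h1 := hsd (MultilinearMap.uncurryRight
        (M := fun _ : Fin (1 + 1) => UV (RatFunc k))
        ((flipTail y).compMultilinearMap (qOf Ψ))) (by
          intro f hf0 hf1
          change qOf Ψ (fun _ => cl f) (cl (1 - f)) (Fin.cons (cl f) y) = 0
          rw [qOf_apply, ← hsome]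
          exact hφ i rfl f y hf0) s v
      have h2 : qOf Ψ (fun _ => s) v (Fin.cons s y) = 0 := h1
      rw [qOf_apply] at h2
      rw [hQ]
      exact h2)
  refine ⟨ofAlt Θ, fun v => ?_⟩
  have h2 : φ = (ofAlt Θ) ∘ₗ (D.e j) := by
    apply text
    intro x y
    rw [LinearMap.comp_apply]
    rcases x with _ | x
    · rw [hnone, D.e_inf, map_zero]
    · by_cases hx : x = 0
      · subst hx
        rw [D.e_zero, map_zero, hsome, cl_zero, map_zero]
        rfl
      · by_cases hx1 : x = 1
        · subst hx1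
          rw [D.e_one, map_zero, hsome, sub_self, cl_zero, map_zero]
          rfl
        · rw [D.e_some j x y hx hx1, ofAlt_apply, hΘ, hQ, hsome]
  rw [h2]
  rfl

end Main

/-- the last two cohomology groups -/
theorem topTwo (k : Type) [Field k] (p : ℕ) [Fact p.Prime] [CharP k p]
    (hk : ∀ c : k, ∃ r : ℕ, 1 ≤ r ∧ c ^ p ^ r = c)
    (h0 : SpanDual (RatFunc k) 0) (h1 : SpanDual (RatFunc k) 1)
    (D : H39Gon.Differentials (RatFunc k)) :
    (∀ m, Function.Injective (D.d m 0)) ∧ Function.Injective (D.e 0) ∧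
    (∀ j, Function.Exact (D.d 0 j) (D.e (j + 1))) ∧ (∀ j, Function.Surjective (D.e j)) := by
  refine ⟨?_, ?_, ?_, ?_⟩
  · intro m
    apply injective_of_dual
    intro φ
    exact step_d0 k p hk D m φ
  · apply injective_of_dual
    intro φ
    exact step_e' k p hk h1 D 0 φ (fun i hi => by omega)
  · intro j
    apply exact_of_dual
    · have h0 : (D.e (j + 1)) ∘ₗ (D.d 0 j) = 0 := by
        apply text
        intro x y
        rw [LinearMap.comp_apply, LinearMap.zero_apply]
        rcases x with _ | x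
        · rw [D.d_inf, map_zero]
        · by_cases hx : x = 0
          · subst hx
            rw [D.d_zero, map_zero]
          · rw [D.d_some _ _ _ _ hx]
            by_cases hx1 : x = 1
            · subst hx1
              exact D.e_one _ _
            · rw [D.e_some _ _ _ hx hx1]
              unfold lq
              have h1 : exteriorPower.ιMulti ℤ (j + 1 + 2)
                  (Fin.cons (cl (1 - x)) (Fin.cons (cl x)
                    (Fin.cons (cl x) y : Fin (j + 1) → UV (RatFunc k)) :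
                      Fin (j + 1 + 1) → UV (RatFunc k))) = 0 :=
                AlternatingMap.map_eq_zero_of_eq _ _ (i := ⟨1, by omega⟩) (j := ⟨2, by omega⟩)
                  (by rfl) (by simp [Fin.ext_iff])
              rw [h1, TensorProduct.tmul_zero]
      intro u
      exact LinearMap.congr_fun h0 u
    · intro φ hφ
      apply step_e' k p hk h1 D (j + 1) φ
      intro i hi x y hx
      obtain rfl : j = i := by omega
      have h1' := hφ (tq (RatFunc k) (0 + 3) j (some x) y)
      rw [D.d_some _ _ _ _ hx] at h1'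
      exact h1'
  · intro j
    apply surjective_of_dual
    intro χ hχ
    apply lext
    intro z
    rw [LinearMap.zero_apply, ← toAlt_apply]
    have h1' : ∀ (y : Fin j → UV (RatFunc k)) (s v : UV (RatFunc k)),
        toAlt χ (Fin.cons v (Fin.cons s y)) = 0 := by
      intro y s v
      have h2 := h0 (MultilinearMap.ofSubsingleton ℤ (UV (RatFunc k))
        (UV (RatFunc k) →ₗ[ℤ] ℚ) (0 : Fin 1)
        (LinearMap.flip ((evalTail y) ∘ₗ (toAlt χ).curryLeft))) (by
          intro f hf0 hf1
          change toAlt χ (Fin.cons (cl (1 - f)) (Fin.cons (cl f) y)) = 0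
          rw [toAlt_apply, ← D.e_some j f y hf0 hf1]
          exact hχ _) s v
      exact h2
    have h3 := h1' (Fin.tail (Fin.tail z)) (Fin.tail z 0) (z 0)
    rwa [Fin.cons_self_tail, Fin.cons_self_tail] at h3


end Y775.W3
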