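import Pool.Agent.H39R2.GonP.Bridge
import Pool.Agent.TH358.MC.Ext

/-!
# Project W3: the last two cohomology groups for fields of characteristic zero
-/

set_option autoImplicit false

namespace Y775.W3

open H39Gon H39Gon.E2
open scoped TensorProduct

theorem tmul_eq_zero_tors {B : Type} [AddCommGroup B] (b : B) (h : (1 : ℚ) ⊗ₜ[ℤ] b = 0) :
    ∃ n : ℤ, n ≠ 0 ∧ n • b = 0 := by
  have hloc : IsLocalizedModule (nonZeroDivisors ℤ) (TensorProduct.mk ℤ ℚ B 1) :=
    (isLocalizedModule_iff_isBaseChange (nonZeroDivisors ℤ) ℚ (TensorProduct.mk ℤ ℚ B 1)).2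
      (TensorProduct.isBaseChange ℤ B ℚ)
  obtain ⟨c, hc⟩ := (IsLocalizedModule.eq_zero_iff (nonZeroDivisors ℤ)
    (TensorProduct.mk ℤ ℚ B 1)).1 h
  exact ⟨c.1, nonZeroDivisors.ne_zero c.2, hc⟩

theorem factor {A B W : Type} [AddCommGroup A] [AddCommGroup B] [AddCommGroup W] [Module ℚ W]
    (δ : A →ₗ[ℤ] B) (θ : A →ₗ[ℤ] W) (h : ∀ a, δ a = 0 → θ a = 0) :
    ∃ g : B →ₗ[ℤ] W, ∀ a, θ a = g (δ a) := by
  let f : ℚ ⊗[ℤ] A →ₗ[ℚ] ℚ ⊗[ℤ] B := LinearMap.baseChange ℚ δ
  let t : ℚ ⊗[ℤ] A →ₗ[ℚ] W := LinearMap.liftBaseChange ℚ θ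
  have hk : LinearMap.ker f ≤ LinearMap.ker t := by
    intro z hz
    obtain ⟨q, a, rfl⟩ := Pool.Agent.TH358.MC.pure z
    rw [LinearMap.mem_ker] at hz ⊢
    change q ⊗ₜ[ℤ] δ a = 0 at hz
    change q • θ a = 0
    rcases eq_or_ne q 0 with rfl | hq
    · rw [zero_smul]
    · have h1 : (1 : ℚ) ⊗ₜ[ℤ] δ a = 0 := by
        have h2 : q⁻¹ • (q ⊗ₜ[ℤ] δ a) = 0 := by rw [hz, smul_zero]
        rwa [TensorProduct.smul_tmul', smul_eq_mul, inv_mul_cancel₀ hq] at h2
      obtain ⟨n, hn, h3⟩ := tmul_eq_zero_tors _ h1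
      rw [← map_smul] at h3
      have h4 := h _ h3
      rw [map_smul] at h4
      have h5 : (n : ℚ) • θ a = 0 := by rw [← h4]; exact Int.cast_smul_eq_zsmul ℚ n (θ a)
      have h6 : θ a = 0 := (smul_eq_zero.1 h5).resolve_left (Int.cast_ne_zero.2 hn)
      rw [h6, smul_zero]
  obtain ⟨g, hg⟩ := LinearMap.exists_extend
    (((LinearMap.ker f).liftQ t hk) ∘ₗ (LinearMap.quotKerEquivRange f).symm.toLinearMap)
  refine ⟨(g.restrictScalars ℤ) ∘ₗ (TensorProduct.mk ℤ ℚ B 1), fun a => ?_⟩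
  have h1 := LinearMap.congr_fun hg ⟨f (1 ⊗ₜ a), ⟨_, rfl⟩⟩
  simp only [LinearMap.comp_apply, LinearEquiv.coe_coe, Submodule.subtype_apply] at h1
  have h2 : (LinearMap.quotKerEquivRange f).symm ⟨f (1 ⊗ₜ a), ⟨_, rfl⟩⟩ =
      (LinearMap.ker f).mkQ (1 ⊗ₜ a) := by
    rw [LinearEquiv.symm_apply_eq]
    rfl
  rw [h2] at h1
  have h3 : g (f (1 ⊗ₜ a)) = t (1 ⊗ₜ a) := h1
  have h4 : t (1 ⊗ₜ a) = θ a := by
    change (1 : ℚ) • θ a = θ a
    rw [one_smul]
  have h5 : f (1 ⊗ₜ a) = (1 : ℚ) ⊗ₜ δ a := rfl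
  rw [← h4, ← h3, h5]
  rfl

theorem upd {V : Type} (a b x : V) : Function.update ![a, b] 1 x = ![a, x] := by
  funext i
  fin_cases i <;> rfl

variable {F : Type} [Field F]

/-- the kernel of the last differential -/
theorem ker_e (hsd : SpanDual F 1) (j : ℕ) (e : TQ F 2 j →ₗ[ℚ] LQ F (j + 2))
    (he0 : ∀ y, e (tq F 2 j none y) = 0)
    (he : ∀ (x : F) y, e (tq F 2 j (some x) y) =
      lq F (j + 2) (Fin.cons (cl (1 - x)) (Fin.cons (cl x) y)))
    (v : TQ F 2 j) (hv : e v = 0) :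
    v ∈ Submodule.span ℚ ({w | ∃ (i : ℕ) (hi : j = i + 1) (x : F) (y : Fin i → UV F), x ≠ 0 ∧
        w = tq F 2 j (some x) ((Fin.cons (cl x) y : Fin (i + 1) → UV F) ∘ Fin.cast hi)} ∪
      {w | ∃ α ∈ LinearMap.ker (delta2 F), ∃ y : Fin j → UV F,
        w = (1 : ℚ) ⊗ₜ[ℤ] (((R 2 F).mkQ α) ⊗ₜ[ℤ] exteriorPower.ιMulti ℤ j y)}) := by
  by_contra hn
  obtain ⟨φ, hφ, hne⟩ := exists_dual_ne hn
  apply hne
  obtain ⟨g, hg⟩ := factor (delta2 F) (toTheta φ) (by
    intro α hα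
    ext y
    have h1 := hφ _ (Submodule.subset_span (Or.inr ⟨α, hα, y, rfl⟩))
    exact h1)
  let P : UV F →ₗ[ℤ] UV F →ₗ[ℤ] (UV F [⋀^Fin j]→ₗ[ℤ] ℚ) :=
    LinearMap.mk₂ ℤ (fun a b => g (exteriorPower.ιMulti ℤ 2 ![a, b]))
      (fun a a' b => by rw [← map_add]; congr 1; exact AlternatingMap.map_vecCons_add _ _ _ _)
      (fun c a b => by rw [← map_smul]; congr 1; exact AlternatingMap.map_vecCons_smul _ _ _ _)
      (fun a b b' => by
        rw [← map_add]
        congr 1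
        have := (exteriorPower.ιMulti ℤ 2 (M := UV F)).map_update_add ![a, b] 1 b b'
        rwa [upd, upd, upd] at this)
      (fun c a b => by
        rw [← map_smul]
        congr 1
        have := (exteriorPower.ιMulti ℤ 2 (M := UV F)).map_update_smul ![a, b] 1 c b
        rwa [upd, upd] at this)
  have hPa : ∀ a b, P a b = g (exteriorPower.ιMulti ℤ 2 ![a, b]) := fun a b => rfl
  have hPs : ∀ a, P a a = 0 := by
    intro a
    rw [hPa]
    have : exteriorPower.ιMulti ℤ 2 ![a, a] = 0 :=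
      AlternatingMap.map_eq_zero_of_eq _ _ (i := 0) (j := 1) rfl (by simp)
    rw [this, map_zero]
  have hnone : ∀ y, φ (tq F 2 j none y) = 0 := by
    intro y
    rw [← toTheta_apply, hg]
    have : delta2 F (Finsupp.single none 1) = 0 := by simp [delta2]
    rw [this, map_zero]
    rfl
  have hsome : ∀ x y, φ (tq F 2 j (some x) y) = P (cl (1 - x)) (cl x) y := by
    intro x y
    rw [← toTheta_apply, hg, hPa]
    have : delta2 F (Finsupp.single (some x) 1) =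
        exteriorPower.ιMulti ℤ 2 ![cl (1 - x), cl x] := by simp [delta2]
    rw [this]
  obtain ⟨Θ, hΘ⟩ := koszul_last j P.flip (by
      intro s
      exact hPs s) (by
      intro i hi s u y
      subst hi
      have h1 := hsd (MultilinearMap.uncurryRight
        (M := fun _ : Fin (1 + 1) => UV F)
        ((flipTail y).compMultilinearMap
          (MultilinearMap.ofSubsingleton ℤ (UV F) _ (0 : Fin 1) P.flip))) (by
          intro f hf0 hf1
          change P (cl (1 - f)) (cl f) (Fin.cons (cl f) y) = 0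
          rw [← hsome]
          exact hφ _ (Submodule.subset_span (Or.inl ⟨i, rfl, f, y, hf0, rfl⟩))) s u
      exact h1)
  have h2 : φ = (ofAlt Θ) ∘ₗ e := by
    apply text
    intro x y
    rw [LinearMap.comp_apply]
    rcases x with _ | x
    · rw [hnone, he0, map_zero]
    · rw [he, ofAlt_apply, hΘ, hsome]
      rfl
  rw [h2, LinearMap.comp_apply, hv, map_zero]

/-- the last differential is onto -/
theorem surj_e (h0 : SpanDual F 0) (j : ℕ) (e : TQ F 2 j →ₗ[ℚ] LQ F (j + 2))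
    (he : ∀ (x : F) y, e (tq F 2 j (some x) y) =
      lq F (j + 2) (Fin.cons (cl (1 - x)) (Fin.cons (cl x) y))) :
    Function.Surjective e := by
  apply surjective_of_dual
  intro χ hχ
  apply lext
  intro z
  rw [LinearMap.zero_apply, ← toAlt_apply]
  have h1' : ∀ (y : Fin j → UV F) (s v : UV F),
      toAlt χ (Fin.cons v (Fin.cons s y)) = 0 := by
    intro y s v
    have h2 := h0 (MultilinearMap.ofSubsingleton ℤ (UV F)
      (UV F →ₗ[ℤ] ℚ) (0 : Fin 1)
      (LinearMap.flip ((evalTail y) ∘ₗ (toAlt χ).curryLeft))) (by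
        intro f hf0 hf1
        change toAlt χ (Fin.cons (cl (1 - f)) (Fin.cons (cl f) y)) = 0
        rw [toAlt_apply, ← he f y]
        exact hχ _) s v
    exact h2
  have h3 := h1' (Fin.tail (Fin.tail z)) (Fin.tail z 0) (z 0)
  rwa [Fin.cons_self_tail, Fin.cons_self_tail] at h3

end Y775.W3

/-! ### the versions for the definitions of `GonP` -/

namespace Y775.W3

open GonP

variable {F : Type} [Field F]

/-- the linear map of a differential -/
noncomputable def linE (j : ℕ) (e : GonP.TQ F 2 j → GonP.LQ F (j + 2)) (he : IsE j e) :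
    H39Gon.TQ F 2 j →ₗ[ℚ] H39Gon.LQ F (j + 2) :=
  (eLQ F (j + 2)).toLinearMap ∘ₗ (he.1.mk' e) ∘ₗ (eT F 0 j).symm.toLinearMap

theorem linE_apply (j : ℕ) (e : GonP.TQ F 2 j → GonP.LQ F (j + 2)) (he : IsE j e)
    (w : H39Gon.TQ F 2 j) : linE j e he w = eLQ F (j + 2) (e ((eT F 0 j).symm w)) := rfl

theorem linE_none (j : ℕ) (e : GonP.TQ F 2 j → GonP.LQ F (j + 2)) (he : IsE j e)
    (y : Fin j → H39Gon.UV F) : linE j e he (H39Gon.tq F 2 j none y) = 0 := by
  rw [linE_apply, show (eT F 0 j).symm (H39Gon.tq F 2 j none y) = GonP.tq 2 j none y from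
    eT_symm_tq 0 j none y, he.2.1, map_zero]

theorem linE_some (j : ℕ) (e : GonP.TQ F 2 j → GonP.LQ F (j + 2)) (he : IsE j e)
    (x : F) (y : Fin j → H39Gon.UV F) : linE j e he (H39Gon.tq F 2 j (some x) y) =
      H39Gon.lq F (j + 2) (Fin.cons (H39Gon.cl (1 - x)) (Fin.cons (H39Gon.cl x) y)) := by
  rw [linE_apply, show (eT F 0 j).symm (H39Gon.tq F 2 j (some x) y) = GonP.tq 2 j (some x) y from
    eT_symm_tq 0 j (some x) y]
  by_cases hx : x = 0
  · subst hx
    rw [he.2.2.1, map_zero, H39Gon.e1cl_zero]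
    unfold H39Gon.lq
    rw [(exteriorPower.ιMulti ℤ (j + 2)).map_coord_zero (i := 1) (by simp),
      TensorProduct.tmul_zero]
  · by_cases hx1 : x = 1
    · subst hx1
      rw [he.2.2.2.1, map_zero, H39Gon.e1cl_one]
      unfold H39Gon.lq
      rw [(exteriorPower.ιMulti ℤ (j + 2)).map_coord_zero (i := 1) (by simp),
        TensorProduct.tmul_zero]
    · rw [he.2.2.2.2 x y hx hx1]
      exact eLQ_lq (j + 2) _

/-- the differential exists -/
theorem exists_e (j : ℕ) : ∃ e : GonP.TQ F 2 j → GonP.LQ F (j + 2), IsE j e := by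
  have h1 : ∀ y, H39Gon.e1e F j (H39Gon.tq F 2 j none y) = 0 := by
    intro y
    rw [H39Gon.e1e_apply, H39Gon.e1ev_none]
    rfl
  have h2 : ∀ (x : F) y, H39Gon.e1e F j (H39Gon.tq F 2 j (some x) y) =
      H39Gon.lq F (j + 2) (Fin.cons (H39Gon.cl (1 - x)) (Fin.cons (H39Gon.cl x) y)) := by
    intro x y
    rw [H39Gon.e1e_apply, H39Gon.e1ev_some, H39Gon.e1Psi_apply, H39Gon.e1Psi2_apply]
  have h3 : ∀ y, H39Gon.e1e F j (H39Gon.tq F 2 j (some 0) y) = 0 := by
    intro y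
    rw [h2, H39Gon.e1cl_zero]
    unfold H39Gon.lq
    rw [(exteriorPower.ιMulti ℤ (j + 2)).map_coord_zero (i := 1) (by simp),
      TensorProduct.tmul_zero]
  have h4 : ∀ y, H39Gon.e1e F j (H39Gon.tq F 2 j (some 1) y) = 0 := by
    intro y
    rw [h2, H39Gon.e1cl_one]
    unfold H39Gon.lq
    rw [(exteriorPower.ιMulti ℤ (j + 2)).map_coord_zero (i := 1) (by simp),
      TensorProduct.tmul_zero]
  refine ⟨fun x => (eLQ F (j + 2)).symm (H39Gon.e1e F j (eT F 0 j x)),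
    ⟨fun x y => ?_, fun c x => ?_⟩, fun y => ?_, fun y => ?_, fun y => ?_, fun x y hx hx1 => ?_⟩
  · rw [map_add, map_add, map_add]
  · rw [map_smul, map_smul, map_smul]
  · beta_reduce
    rw [show eT F 0 j (GonP.tq 2 j none y) = H39Gon.tq F 2 j none y from eT_tq 0 j none y, h1,
      map_zero]
  · beta_reduce
    rw [show eT F 0 j (GonP.tq 2 j (some 0) y) = H39Gon.tq F 2 j (some 0) y from
      eT_tq 0 j (some 0) y, h3, map_zero]
  · beta_reduce
    rw [show eT F 0 j (GonP.tq 2 j (some 1) y) = H39Gon.tq F 2 j (some 1) y from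
      eT_tq 0 j (some 1) y, h4, map_zero]
  · beta_reduce
    rw [show eT F 0 j (GonP.tq 2 j (some x) y) = H39Gon.tq F 2 j (some x) y from
      eT_tq 0 j (some x) y, h2]
    exact eLQ_symm_lq (j + 2) _

/-- the differential is unique -/
theorem unique_e (j : ℕ) (e e' : GonP.TQ F 2 j → GonP.LQ F (j + 2)) (a : IsE j e)
    (b : IsE j e') : e' = e := by
  apply text_P 0 j _ _ b.1 a.1
  intro x y
  rcases x with _ | x
  · exact (b.2.1 y).trans (a.2.1 y).symm
  · by_cases hx : x = 0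
    · subst hx; exact (b.2.2.1 y).trans (a.2.2.1 y).symm
    · by_cases hx1 : x = 1
      · subst hx1; exact (b.2.2.2.1 y).trans (a.2.2.2.1 y).symm
      · exact (b.2.2.2.2 x y hx hx1).trans (a.2.2.2.2 x y hx hx1).symm

theorem surj_P (h0 : H39Gon.SpanDual F 0) (j : ℕ) (e : GonP.TQ F 2 j → GonP.LQ F (j + 2))
    (he : IsE j e) : Function.Surjective e := by
  intro w
  obtain ⟨u, hu⟩ := surj_e h0 j (linE j e he) (linE_some j e he) (eLQ F (j + 2) w)
  rw [linE_apply] at hu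
  exact ⟨_, (eLQ F (j + 2)).injective hu⟩

theorem eT_alpha (j : ℕ) (α : GonP.ZP F) (y : Fin j → GonP.UV F) :
    eT F 0 j (toRat (tm (toQuo (GonP.R 2 F) α) (wedge y))) =
      (1 : ℚ) ⊗ₜ[ℤ] (((H39Gon.R 2 F).mkQ α) ⊗ₜ[ℤ] exteriorPower.ιMulti ℤ j y) := by
  rw [← eL_wedge]
  rfl

theorem ker_P (h1 : H39Gon.SpanDual F 1) (j : ℕ)
    (e : GonP.TQ F 2 (j + 1) → GonP.LQ F (j + 3)) (he : IsE (j + 1) e) (v : GonP.TQ F 2 (j + 1))
    (hv : e v = 0) : v ∈ Submodule.span ℚ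
        ({w | ∃ (x : F) (y : Fin j → GonP.UV F), x ≠ 0 ∧
            w = GonP.tq 2 (j + 1) (some x) (Fin.cons (GonP.cl x) y)} ∪
          {w | ∃ (α : GonP.ZP F) (y : Fin (j + 1) → GonP.UV F), GonP.delta2 F α = 0 ∧
            w = toRat (tm (toQuo (GonP.R 2 F) α) (wedge y))}) := by
  have h2 := ker_e h1 (j + 1) (linE (j + 1) e he) (linE_none (j + 1) e he)
    (linE_some (j + 1) e he) (eT F 0 (j + 1) v) (by
      rw [linE_apply, LinearEquiv.symm_apply_apply, hv, map_zero])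
  have h3 : v = (eT F 0 (j + 1)).symm (eT F 0 (j + 1) v) := by
    rw [LinearEquiv.symm_apply_apply]
  rw [h3]
  have h4 := Submodule.mem_map_of_mem (f := (eT F 0 (j + 1)).symm.toLinearMap) h2
  rw [Submodule.map_span] at h4
  refine Submodule.span_mono ?_ h4
  rintro w ⟨u, hu, rfl⟩
  rcases hu with ⟨i, hi, x, y, hx, rfl⟩ | ⟨α, hα, y, rfl⟩
  · obtain rfl : j = i := by omega
    left
    refine ⟨x, y, hx, ?_⟩
    exact eT_symm_tq 0 (j + 1) (some x) _
  · right
    refine ⟨α, y, ?_, ?_⟩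
    · have h5 := delta2_eq (F := F) α
      rw [LinearMap.mem_ker.1 hα] at h5
      exact (eL (GonP.UV F) 2).injective (h5.trans (map_zero _).symm)
    · exact ((eT F 0 (j + 1)).symm_apply_eq).2 (eT_alpha (j + 1) α y).symm

end Y775.W3
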