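import Pool.Agent.Y775.W3.Core
import Pool.Agent.H39R2.Gon.B2

/-!
# Project W3: `SpanDual F 0` and `SpanDual F 1`
-/

set_option autoImplicit false

namespace Y775.W3

open H39Gon H39Gon.TaskB

section field

variable {F : Type} [Field F]

theorem tors_map {M : Type} [AddCommGroup M] [IsAddTorsionFree M] (f : UV F →ₗ[ℤ] M) {x : UV F}
    (hx : Tors x) : f x = 0 := by
  obtain ⟨N, hN, h⟩ := hx
  have h1 : N • f x = N • (0 : M) := by rw [smul_zero, ← map_nsmul, h, map_zero]
  exact IsAddTorsionFree.nsmul_right_injective hN.ne' h1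

/-- `cl (f - 1)` against `cl (1 - f)` -/
theorem cl_sub_one (f : F) (hf : f ≠ 1) : cl (f - 1) = cl (-1 : F) + cl (1 - f) := by
  rw [← cl_mul (by norm_num) (sub_ne_zero.2 (Ne.symm hf))]
  congr 1
  ring

theorem cl_one_sub_inv (f : F) (hf0 : f ≠ 0) (hf : f ≠ 1) :
    cl (1 - f⁻¹) = cl (-1 : F) + cl (1 - f) - cl f := by
  rw [← cl_sub_one f hf, ← cl_div (sub_ne_zero.2 hf) hf0]
  congr 1
  field_simp

end field

section frac

variable {F R : Type} [Field F] [CommRing R] [IsDomain R] [Algebra R F] [IsFractionRing R F]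

/-- the logarithm `R ∖ 0 → F^*` -/
noncomputable def Lf (F : Type) [Field F] {R : Type} [CommRing R] [Algebra R F] (a : R) : UV F :=
  cl (algebraMap R F a)

theorem alg_ne {a : R} (ha : a ≠ 0) : algebraMap R F a ≠ 0 := by
  rwa [Ne, IsFractionRing.to_map_eq_zero_iff]

theorem Lf_log : IsLog (Lf F (R := R)) := by
  intro a b ha hb
  unfold Lf
  rw [map_mul, cl_mul (alg_ne ha) (alg_ne hb)]

theorem Lf_surj (v : UV F) : ∃ a b : R, a ≠ 0 ∧ b ≠ 0 ∧ v = Lf F a - Lf F b := by
  obtain ⟨f, hf, rfl⟩ := exists_cl v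
  obtain ⟨a, b, hb, rfl⟩ := IsFractionRing.div_surjective (A := R) f
  have hb0 : b ≠ 0 := nonZeroDivisors.ne_zero hb
  have ha0 : a ≠ 0 := by
    rintro rfl
    rw [map_zero, zero_div] at hf
    exact hf rfl
  exact ⟨a, b, ha0, hb0, cl_div (alg_ne ha0) (alg_ne hb0)⟩

/-- the relation in homogeneous form -/
theorem rel_hom {A B C : R} (hA : A ≠ 0) (hB : B ≠ 0) (hC : C ≠ 0) (h : A + B = C) :
    ∃ f : F, f ≠ 0 ∧ f ≠ 1 ∧ cl f = Lf F A - Lf F C ∧ cl (1 - f) = Lf F B - Lf F C := by
  have hA' : algebraMap R F A ≠ 0 := alg_ne hA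
  have hB' : algebraMap R F B ≠ 0 := alg_ne hB
  have hC' : algebraMap R F C ≠ 0 := alg_ne hC
  have h1 : 1 - algebraMap R F A / algebraMap R F C = algebraMap R F B / algebraMap R F C := by
    rw [eq_div_iff hC', sub_mul, one_mul, div_mul_cancel₀ _ hC', ← h, map_add]
    ring
  refine ⟨algebraMap R F A / algebraMap R F C, div_ne_zero hA' hC', ?_, cl_div hA' hC', ?_⟩
  · intro h2
    rw [h2, sub_self] at h1
    exact (div_ne_zero hB' hC') h1.symm
  · rw [h1, cl_div hB' hC']
    rfl

variable (F R)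

/-- weight two -/
theorem span0_of
    (h : ∀ ω : UV F →ₗ[ℤ] UV F →ₗ[ℤ] ℚ, (∀ a b, ω a b = - ω b a) →
      (∀ (a : R) (w : UV F), a ≠ 0 → ω (Lf F (-a)) w = ω (Lf F a) w) →
      (∀ b d c : R, b ≠ 0 → d ≠ 0 → c ≠ 0 → b + d = c → sF ω (Lf F b) (Lf F d) (Lf F c) = 0) →
      ∀ a b : R, a ≠ 0 → b ≠ 0 → ω (Lf F a) (Lf F b) = 0) : SpanDual F 0 := by
  intro Q hQ
  let ω : UV F →ₗ[ℤ] UV F →ₗ[ℤ] ℚ := LinearMap.mk₂ ℤ (fun s v => Q (fun _ => s) v)
    (by
      intro a b c
      have := Q.map_update_add (fun _ => (0 : UV F)) (0 : Fin 1) a b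
      have e : ∀ x : UV F, Function.update (fun _ => (0 : UV F)) (0 : Fin 1) x = fun _ => x := by
        intro x; funext i; rw [Subsingleton.elim i 0]; simp
      rw [e, e, e] at this
      change Q (fun _ => a + b) c = _
      rw [this]; rfl)
    (by
      intro n a c
      have := Q.map_update_smul (fun _ => (0 : UV F)) (0 : Fin 1) n a
      have e : ∀ x : UV F, Function.update (fun _ => (0 : UV F)) (0 : Fin 1) x = fun _ => x := by
        intro x; funext i; rw [Subsingleton.elim i 0]; simp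
      rw [e, e] at this
      change Q (fun _ => n • a) c = _
      rw [this]; rfl)
    (by intro a b c; simp) (by intro n a c; simp)
  have hω : ∀ s v, ω s v = Q (fun _ => s) v := fun s v => rfl
  have hself : ∀ s, ω s s = 0 := by
    intro s
    obtain ⟨f, hf, rfl⟩ := exists_cl s
    by_cases hf1 : f = 1
    · rw [hf1, cl_one, map_zero]
    · have h1 := hQ f⁻¹ (inv_ne_zero hf) (by rwa [Ne, inv_eq_one])
      have h2 := hQ f hf hf1
      have h3 := tors_map (ω (cl f)) (tors_neg_one (F := F))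
      rw [← hω, cl_inv hf, cl_one_sub_inv f hf hf1, map_neg, LinearMap.neg_apply, map_sub, map_add,
        h3] at h1
      rw [← hω] at h2
      linarith
  have halt : ∀ a b, ω a b = - ω b a := by
    intro a b
    have h1 := hself (a + b)
    simp only [map_add, LinearMap.add_apply, hself] at h1
    linarith
  have hL : IsLog (Lf F (R := R)) := Lf_log
  have h0 := h ω halt (by
      intro a w ha
      have := lin_neg hL (ω.flip w) a ha
      rwa [LinearMap.flip_apply, LinearMap.flip_apply] at this) (by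
      intro b d c hb hd hc hbd
      obtain ⟨f, hf0, hf1, e1, e2⟩ := rel_hom (F := F) hb hd hc hbd
      have h1 := hQ f hf0 hf1
      rw [← hω, e1, e2] at h1
      simp only [map_sub, LinearMap.sub_apply, hself] at h1
      unfold sF
      have h2 := halt (Lf F b) (Lf F c)
      have h3 := halt (Lf F c) (Lf F d)
      linarith)
  intro s v
  rw [← hω]
  obtain ⟨a, b, ha, hb, rfl⟩ := Lf_surj (R := R) s
  obtain ⟨c, d, hc, hd, rfl⟩ := Lf_surj (R := R) v
  simp only [map_sub, LinearMap.sub_apply, h0 a c ha hc, h0 a d ha hd, h0 b c hb hc, h0 b d hb hd]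
  norm_num

/-- weight three -/
theorem span1_of
    (h : ∀ T : UV F →ₗ[ℤ] UV F →ₗ[ℤ] UV F →ₗ[ℤ] ℚ, (∀ a b c, T a b c = T b a c) →
      (∀ a b c, T a b c + T b c a + T c a b = 0) →
      (∀ A B C : R, A ≠ 0 → B ≠ 0 → C ≠ 0 → A + B = C →
        T (Lf F A - Lf F C) (Lf F A - Lf F C) (Lf F B - Lf F C) = 0) →
      ∀ a b c : R, a ≠ 0 → b ≠ 0 → c ≠ 0 → T (Lf F a) (Lf F b) (Lf F c) = 0) :
    SpanDual F 1 := by
  intro Q hQ
  let q : UV F → UV F → (UV F →ₗ[ℤ] ℚ) := fun a b => Q (Fin.cons a (fun _ : Fin 1 => b))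
  have q1 : ∀ a a' b, q (a + a') b = q a b + q a' b := fun a a' b => Q.cons_add _ a a'
  have q2 : ∀ (n : ℤ) a b, q (n • a) b = n • q a b := fun n a b => Q.cons_smul _ n a
  have e : ∀ x : UV F, Function.update (fun _ => (0 : UV F)) (0 : Fin 1) x = fun _ => x := by
    intro x; funext i; rw [Subsingleton.elim i 0]; simp
  have q3 : ∀ a b b', q a (b + b') = q a b + q a b' := by
    intro a b b'
    have := (Q.curryLeft a).map_update_add (fun _ => (0 : UV F)) (0 : Fin 1) b b'
    rw [e, e, e] at this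
    exact this
  have q4 : ∀ (n : ℤ) a b, q a (n • b) = n • q a b := by
    intro n a b
    have := (Q.curryLeft a).map_update_smul (fun _ => (0 : UV F)) (0 : Fin 1) n b
    rw [e, e] at this
    exact this
  have qd : ∀ s : UV F, q s s = Q (fun _ => s) := by
    intro s
    change Q _ = Q _
    congr 1
    funext i
    refine Fin.cases ?_ (fun j => ?_) i <;> simp
  let T : UV F →ₗ[ℤ] UV F →ₗ[ℤ] UV F →ₗ[ℤ] ℚ := LinearMap.mk₂ ℤ (fun a b => q a b + q b a)
    (fun a b c => by rw [q1, q3]; abel) (fun n a c => by rw [q2, q4, smul_add])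
    (fun a b c => by rw [q1, q3]; abel) (fun n a c => by rw [q2, q4, smul_add])
  have hT : ∀ a b c, T a b c = q a b c + q b a c := fun a b c => rfl
  have hTd : ∀ s v, T s s v = 2 * Q (fun _ => s) v := by
    intro s v; rw [hT, qd]; ring
  have hsym : ∀ a b c, T a b c = T b a c := by
    intro a b c; rw [hT, hT]; ring
  have hself : ∀ s, T s s s = 0 := by
    intro s
    obtain ⟨f, hf, rfl⟩ := exists_cl s
    by_cases hf1 : f = 1
    · rw [hf1, cl_one, map_zero]
    · have h1 := hQ f⁻¹ (inv_ne_zero hf) (by rwa [Ne, inv_eq_one])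
      have h2 := hQ f hf hf1
      have h3 := tors_map (T (cl f) (cl f)) (tors_neg_one (F := F))
      have h1' : T (cl f⁻¹) (cl f⁻¹) (cl (1 - f⁻¹)) = 0 := by rw [hTd, h1, mul_zero]
      have h2' : T (cl f) (cl f) (cl (1 - f)) = 0 := by rw [hTd, h2, mul_zero]
      rw [cl_inv hf, cl_one_sub_inv f hf hf1] at h1'
      simp only [map_neg, LinearMap.neg_apply, map_sub, map_add, h3, neg_neg] at h1'
      linarith
  have hcyc : ∀ a b c, T a b c + T b c a + T c a b = 0 := by
    intro a b c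
    have g1 := hself (a + b + c)
    have g2 := hself (a + b)
    have g3 := hself (b + c)
    have g4 := hself (a + c)
    have g5 := hself a
    have g6 := hself b
    have g7 := hself c
    simp only [map_add, LinearMap.add_apply] at g1 g2 g3 g4
    have s1 := hsym b a c
    have s2 := hsym c b a
    have s3 := hsym c a b
    have s4 := hsym a c b
    have s5 := hsym b c a
    linarith
  have h0 := h T hsym hcyc (by
      intro A B C hA hB hC hABC
      obtain ⟨f, hf0, hf1, e1, e2⟩ := rel_hom (F := F) hA hB hC hABC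
      rw [← e1, ← e2, hTd, hQ f hf0 hf1, mul_zero])
  intro s v
  have h1 : T s s v = 0 := by
    obtain ⟨a, b, ha, hb, rfl⟩ := Lf_surj (R := R) s
    obtain ⟨c, d, hc, hd, rfl⟩ := Lf_surj (R := R) v
    simp only [map_sub, LinearMap.sub_apply, h0 a a c ha ha hc, h0 a b c ha hb hc,
      h0 b a c hb ha hc, h0 b b c hb hb hc, h0 a a d ha ha hd, h0 a b d ha hb hd,
      h0 b a d hb ha hd, h0 b b d hb hb hd]
    norm_num
  rw [hTd] at h1
  linarith

end frac

end Y775.W3
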