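import Pool.Agent.Y775.W3.PolyFin
import Pool.Agent.Y775.W3.Span
import Pool.Agent.Y953.W3.SUM
import Pool.Agent.Y684.W3.HOM
import Pool.Agent.Y684.W3.KAP
import Pool.Agent.Y261.W3.FIVE
import Pool.Agent.Y310.W3.Poly
import Pool.Agent.Y328.W3.INT
import Pool.Agent.Y43.W3.LOC
import Pool.Agent.Y212.W3.Altp
import Pool.Agent.Y117.W3.ALTI

/-!
# Project W3: the theorem for `k(x)` and for `ℚ`
-/

set_option autoImplicit false

namespace Y775.W3

open H39Gon H39Gon.TaskB Polynomial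

theorem hHOM : StmHOM := Pool.Agent.Y684.W3.main
theorem hKAP : StmKAP := Pool.Agent.Y684.W3.Kap.main hHOM
theorem hSUM : StmSUM := Pool.Agent.Y953.W3.SUM.main
theorem hFIVE : StmFIVE := Pool.Agent.Y261.W3.main
theorem hPOLY : StmPOLY := Pool.Agent.Y310.W3.Poly.main
theorem hINT : StmINT := Pool.Agent.Y328.W3.INT.main
theorem hLOC : StmLOC := Pool.Agent.Y43.W3.main
theorem hALTP : StmALTP := Pool.Agent.Y212.W3.main hHOM hPOLY hLOC
theorem hALTI : StmALTI := Pool.Agent.Y117.W3.main hHOM hINT hLOC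

section poly

variable (k : Type) [Field k] (ℓ : ℕ) [Fact ℓ.Prime] [Algebra (ZMod ℓ) k]
  [Algebra.IsAlgebraic (ZMod ℓ) k]

include ℓ in
theorem const_tors (c : k) (hc : c ≠ 0) :
    ∃ N : ℕ, 0 < N ∧ N • (Lf (RatFunc k) (C c : k[X])) = 0 := by
  obtain ⟨N, hN, h⟩ := tors_of_locFin (hLOC.1 ℓ k) c hc
  have h1 : (algebraMap k[X] (RatFunc k) (C c)) ^ N = 1 := by
    rw [← map_pow, ← C_pow, h, C_1, map_one]
  refine ⟨N, hN, ?_⟩
  unfold Lf
  have h2 : algebraMap k[X] (RatFunc k) (C c) ≠ 0 := alg_ne (C_ne_zero.2 hc)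
  rw [← cl_pow h2, h1, cl_one]

include ℓ in
theorem span_poly : SpanDual (RatFunc k) 0 ∧ SpanDual (RatFunc k) 1 := by
  have hALT : ∀ n : ℕ, AltZ {a : k[X] | a ≠ 0 ∧ a.natDegree < n} (Lf (RatFunc k) (R := k[X])) :=
    hALTP k ℓ (UV (RatFunc k)) _ Lf_log (const_tors k ℓ)
  constructor
  · apply span0_of (RatFunc k) k[X]
    intro ω h1 h2 h3 a b ha hb
    exact hALT (max a.natDegree b.natDegree + 1) ω h1 (fun a w ha => h2 a w ha)
      (fun b hb d hd c hc hbd => h3 b d c hb.1 hd.1 hc.1 hbd) a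
      ⟨ha, by have := le_max_left a.natDegree b.natDegree; omega⟩ b
      ⟨hb, by have := le_max_right a.natDegree b.natDegree; omega⟩
  · apply span1_of (RatFunc k) k[X]
    intro T h1 h2 h3 a b c ha hb hc
    have e1 := le_max_left (max a.natDegree b.natDegree) c.natDegree
    have e2 := le_max_right (max a.natDegree b.natDegree) c.natDegree
    have e3 := le_max_left a.natDegree b.natDegree
    have e4 := le_max_right a.natDegree b.natDegree
    exact poly_main hHOM hSUM hFIVE hKAP hPOLY (fun P _ => hLOC.2.1 k ℓ P) _ Lf_log hALT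
      (const_tors k ℓ) T h1 h2 h3 (max (max a.natDegree b.natDegree) c.natDegree + 1) a b c
      ⟨ha, by omega⟩ ⟨hb, by omega⟩ ⟨hc, by omega⟩

end poly

theorem span_rat : SpanDual ℚ 0 ∧ SpanDual ℚ 1 := by
  have hALT : ∀ n : ℕ, AltZ {a : ℤ | a ≠ 0 ∧ a.natAbs < n} (Lf ℚ (R := ℤ)) :=
    hALTI (UV ℚ) _ Lf_log
  constructor
  · apply span0_of ℚ ℤ
    intro ω h1 h2 h3 a b ha hb
    exact hALT (max a.natAbs b.natAbs + 1) ω h1 (fun a w ha => h2 a w ha)
      (fun b hb d hd c hc hbd => h3 b d c hb.1 hd.1 hc.1 hbd) a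
      ⟨ha, by have := le_max_left a.natAbs b.natAbs; omega⟩ b
      ⟨hb, by have := le_max_right a.natAbs b.natAbs; omega⟩
  · apply span1_of ℚ ℤ
    intro T h1 h2 h3 a b c ha hb hc
    have e1 := le_max_left (max a.natAbs b.natAbs) c.natAbs
    have e2 := le_max_right (max a.natAbs b.natAbs) c.natAbs
    have e3 := le_max_left a.natAbs b.natAbs
    have e4 := le_max_right a.natAbs b.natAbs
    exact int_main hHOM hSUM hFIVE hKAP hINT hALTI hLOC _ Lf_log
      T h1 h2 h3 (max (max a.natAbs b.natAbs) c.natAbs + 1) a b c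
      ⟨ha, by omega⟩ ⟨hb, by omega⟩ ⟨hc, by omega⟩

end Y775.W3
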