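import Pool.Agent.Y775.W3.Stm

/-!
# Project W3: the step at one prime
-/

set_option autoImplicit false

namespace Y775.W3

section gen

variable {R W : Type} [CommRing R] [IsDomain R] [AddCommGroup W]

theorem L_one {L : R → W} (hL : IsLog L) : L 1 = 0 := by
  have := hL 1 1 one_ne_zero one_ne_zero
  rw [mul_one] at this
  simpa using this

theorem L_neg_one {L : R → W} (hL : IsLog L) : (2 : ℤ) • L (-1) = 0 := by
  have := hL (-1) (-1) (neg_ne_zero.2 one_ne_zero) (neg_ne_zero.2 one_ne_zero)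
  rw [neg_one_mul, neg_neg, L_one hL] at this
  rw [two_smul, ← this]

theorem lin_neg {M : Type} [AddCommGroup M] [IsAddTorsionFree M] {L : R → W} (hL : IsLog L)
    (f : W →ₗ[ℤ] M) (a : R) (ha : a ≠ 0) : f (L (-a)) = f (L a) := by
  have h1 : L (-a) = L (-1) + L a := by
    rw [← hL (-1) a (neg_ne_zero.2 one_ne_zero) ha, neg_one_mul]
  have h2 : (2 : ℤ) • f (L (-1)) = 0 := by
    rw [← map_smul, L_neg_one hL, map_zero]
  have h3 : f (L (-1)) = 0 := by
    have h4 : (2 : ℕ) • f (L (-1)) = (2 : ℕ) • (0 : M) := by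
      rw [smul_zero, ← h2]
      simp [two_smul]
    exact IsAddTorsionFree.nsmul_right_injective two_ne_zero h4
  rw [h1, map_add, h3, zero_add]

variable {K : Type} [Field K] (D : RD R K)

theorem rd_ne {a : R} (ha : a ∈ D.S) : a ≠ 0 := by
  rintro rfl
  exact D.hSρ 0 ha (map_zero _)

theorem rd_cl {a : R} (ha : a ∈ Submonoid.closure D.S) : D.ρ a ≠ 0 := by
  induction ha using Submonoid.closure_induction with
  | mem x hx => exact D.hSρ x hx
  | one => rw [map_one]; exact one_ne_zero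
  | mul x y _ _ hx hy => rw [map_mul]; exact mul_ne_zero hx hy

theorem rd_cl_ne {a : R} (ha : a ∈ Submonoid.closure D.S) : a ≠ 0 := by
  rintro rfl
  exact rd_cl D ha (map_zero _)

theorem rd_rep {x : K} (hx : x ≠ 0) : D.rep x ∈ D.S := by
  have := D.s2 x 0 hx
  rwa [D.rep0, sub_zero] at this

theorem rd_one : (1 : R) ∈ D.S := by
  have := rd_rep D (one_ne_zero (α := K))
  rwa [D.rep1] at this

/-- a linear map which vanishes on `L S` vanishes on `L M`. -/
theorem ext_cl {M : Type} [AddCommGroup M] {L : R → W} (hL : IsLog L) (f : W →ₗ[ℤ] M)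
    (h : ∀ a ∈ D.S, f (L a) = 0) : ∀ a ∈ Submonoid.closure D.S, f (L a) = 0 := by
  intro a ha
  induction ha using Submonoid.closure_induction with
  | mem x hx => exact h x hx
  | one => rw [L_one hL, map_zero]
  | mul x y hx' hy' hx hy => rw [hL _ _ (rd_cl_ne D hx') (rd_cl_ne D hy'), map_add, hx, hy, add_zero]

theorem ext_cl2 {L : R → W} (hL : IsLog L) (f : W →ₗ[ℤ] W →ₗ[ℤ] ℚ)
    (h : ∀ a ∈ D.S, ∀ b ∈ D.S, f (L a) (L b) = 0) :
    ∀ a ∈ Submonoid.closure D.S, ∀ b ∈ Submonoid.closure D.S, f (L a) (L b) = 0 := by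
  intro a ha
  apply ext_cl D hL
  intro b hb
  have := ext_cl D hL (f.flip (L b)) (fun a ha => by rw [LinearMap.flip_apply]; exact h a ha b hb) a ha
  rwa [LinearMap.flip_apply] at this

theorem ext_cl3 {L : R → W} (hL : IsLog L) (T : W →ₗ[ℤ] W →ₗ[ℤ] W →ₗ[ℤ] ℚ)
    (h : ∀ a ∈ D.S, ∀ b ∈ D.S, ∀ c ∈ D.S, T (L a) (L b) (L c) = 0) :
    ∀ a ∈ Submonoid.closure D.S, ∀ b ∈ Submonoid.closure D.S, ∀ c ∈ Submonoid.closure D.S,
      T (L a) (L b) (L c) = 0 := by
  intro a ha b hb c hc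
  have h1 : ∀ a ∈ D.S, T (L a) (L b) (L c) = 0 := fun a ha =>
    ext_cl2 D hL (T (L a)) (h a ha) b hb c hc
  have h2 := ext_cl D hL ((T.flip (L b)).flip (L c)) (fun a ha => by
    rw [LinearMap.flip_apply, LinearMap.flip_apply]; exact h1 a ha) a ha
  rwa [LinearMap.flip_apply, LinearMap.flip_apply] at h2

end gen

/-- the step at one prime -/
theorem prime_step (hHOM : StmHOM) (hSUM : StmSUM) (hFIVE : StmFIVE) (hKAP : StmKAP)
    {R K W : Type} [CommRing R] [IsDomain R] [Field K] [AddCommGroup W] (D : RD R K)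
    (hK : LocFin K) (hp0 : D.p ≠ 0) (L : R → W) (hL : IsLog L)
    (T : W →ₗ[ℤ] W →ₗ[ℤ] W →ₗ[ℤ] ℚ)
    (hsym : ∀ a b c, T a b c = T b a c) (hcyc : ∀ a b c, T a b c + T b c a + T c a b = 0)
    (hrel : ∀ A B C : R, A ≠ 0 → B ≠ 0 → C ≠ 0 → A + B = C →
      T (L A - L C) (L A - L C) (L B - L C) = 0)
    (IH : ∀ a ∈ D.S, ∀ b ∈ D.S, ∀ c ∈ D.S, T (L a) (L b) (L c) = 0)
    (hAZ : AltZ D.S L) :
    (∀ u ∈ D.S, ∀ v ∈ D.S, T (L u) (L v) (L D.p) = 0) ∧
    (∀ u ∈ D.S, ∀ v ∈ D.S, T (L D.p) (L u) (L v) = 0) ∧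
    (∀ u ∈ D.S, T (L D.p) (L D.p) (L u) = 0) := by
  have IH' := ext_cl3 D hL T IH
  -- kappa
  let κ : W →ₗ[ℤ] W →ₗ[ℤ] ℚ := LinearMap.mk₂ ℤ (fun a b => T a b (L D.p))
    (fun a b c => by simp) (fun a b c => by simp) (fun a b c => by simp) (fun a b c => by simp)
  have hκ : ∀ a b, κ a b = T a b (L D.p) := fun a b => rfl
  have hk0 : ∀ u ∈ D.S, ∀ v ∈ D.S, κ (L u) (L v) = 0 := by
    apply hKAP R K W D L hK hL κ
    · intro a b
      rw [hκ, hκ, hsym]
    · intro A₁ h1 A₂ h2 y hy h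
      have hy' : y ∈ Submonoid.closure D.S := Submonoid.subset_closure hy
      have hy0 := rd_ne D hy
      have hr := hrel A₂ (D.p * y) A₁ (rd_cl_ne D h2) (mul_ne_zero hp0 hy0) (rd_cl_ne D h1)
        (by rw [← h]; ring)
      rw [hL _ _ hp0 hy0] at hr
      simp only [map_add, map_sub, LinearMap.sub_apply, LinearMap.add_apply,
        IH' _ h1 _ h1 _ h1, IH' _ h1 _ h1 _ h2, IH' _ h1 _ h2 _ h1, IH' _ h1 _ h2 _ h2,
        IH' _ h2 _ h1 _ h1, IH' _ h2 _ h1 _ h2, IH' _ h2 _ h2 _ h1, IH' _ h2 _ h2 _ h2,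
        IH' _ h1 _ h1 _ hy', IH' _ h1 _ h2 _ hy', IH' _ h2 _ h1 _ hy', IH' _ h2 _ h2 _ hy'] at hr
      simp only [map_sub, LinearMap.sub_apply, hκ]
      linarith
  have hk1 := ext_cl2 D hL κ hk0
  -- omega
  let ω : W →ₗ[ℤ] W →ₗ[ℤ] ℚ := LinearMap.mk₂ ℤ (fun a b => (T (L D.p) a b - T (L D.p) b a) / 2)
    (fun a b c => by simp; ring) (fun a b c => by simp; ring) (fun a b c => by simp; ring)
    (fun a b c => by simp; ring)
  have hω : ∀ a b, ω a b = (T (L D.p) a b - T (L D.p) b a) / 2 := fun a b => rfl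
  have hωalt : ∀ a b, ω a b = - ω b a := fun a b => by rw [hω, hω]; ring
  have hωneg : ∀ a w, a ≠ 0 → ω (L (-a)) w = ω (L a) w := by
    intro a w ha
    have := lin_neg hL (ω.flip w) a ha
    rwa [LinearMap.flip_apply, LinearMap.flip_apply] at this
  have hωT : ∀ a ∈ Submonoid.closure D.S, ∀ b ∈ Submonoid.closure D.S,
      T (L D.p) (L a) (L b) = ω (L a) (L b) := by
    intro a ha b hb
    have h1 := hcyc (L D.p) (L a) (L b)
    have h2 := hk1 a ha b hb
    rw [hκ] at h2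
    rw [h2, hsym (L b) (L D.p) (L a)] at h1
    rw [hω]
    linarith
  let π : W →ₗ[ℤ] ℚ := T (L D.p) (L D.p)
  have hPR : PR D L ω π := by
    intro A₁ h1 A₂ h2 y hy h
    have hy0 := rd_cl_ne D hy
    have hr := hrel (D.p * y) A₂ A₁ (mul_ne_zero hp0 hy0) (rd_cl_ne D h2) (rd_cl_ne D h1)
      (by rw [← h]; ring)
    rw [hL _ _ hp0 hy0] at hr
    have e1 := hsym (L y) (L D.p) (L A₂)
    have e2 := hsym (L y) (L D.p) (L A₁)
    have e3 := hsym (L A₁) (L D.p) (L A₂)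
    have e4 := hsym (L A₁) (L D.p) (L A₁)
    have a11 := hωalt (L A₁) (L A₁)
    simp only [map_add, map_sub, LinearMap.sub_apply, LinearMap.add_apply, e1, e2, e3, e4,
        IH' _ h1 _ h1 _ h1, IH' _ h1 _ h1 _ h2, IH' _ hy _ hy _ h1, IH' _ hy _ hy _ h2,
        IH' _ hy _ h1 _ h1, IH' _ hy _ h1 _ h2, IH' _ h1 _ hy _ h1, IH' _ h1 _ hy _ h2,
        hωT _ hy _ h1, hωT _ hy _ h2, hωT _ h1 _ h1, hωT _ h1 _ h2] at hr
    change T (L D.p) (L D.p) (L A₁) - T (L D.p) (L D.p) (L A₂) = _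
    linarith
  obtain ⟨hF1, hF2⟩ := hFIVE R K W D L hL ω π hωalt hωneg hPR
  -- B = 0
  have hL1 := L_one hL
  have hωneg' : ∀ a w, a ≠ 0 → ω w (L (-a)) = ω w (L a) := by
    intro a w ha
    rw [hωalt, hωneg a w ha, ← hωalt]
  have hB : ∀ x : K, x ≠ 0 → x ≠ 1 → ω (L (D.rep x)) (L (1 - D.rep x)) = 0 := by
    apply hSUM K hK (fun x => ω (L (D.rep x)) (L (1 - D.rep x)))
    · intro x hx0 hx1
      have hr : D.rep x ∈ D.S := rd_rep D hx0
      have hr' : 1 - D.rep x ∈ D.S := by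
        have := D.s2 1 x (Ne.symm hx1)
        rwa [D.rep1] at this
      have h := hF1 (1 - D.rep x) hr' 1 (rd_one D) (by rwa [sub_sub_cancel])
      rw [sub_sub_cancel, map_sub, map_one, D.hrep, div_one] at h
      change ω (L (D.rep (1 - x))) (L (1 - D.rep (1 - x))) = _
      rw [← h]
      unfold sF
      rw [hL1]
      simp only [map_zero, LinearMap.zero_apply, add_zero]
      exact hωalt _ _
    · intro x hx0 hx1
      have hr : D.rep x ∈ D.S := rd_rep D hx0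
      have hr' : D.rep x - 1 ∈ D.S := by
        have := D.s2 x 1 hx1
        rwa [D.rep1] at this
      have h := hF1 1 (rd_one D) (D.rep x) hr hr'
      rw [map_one, D.hrep, one_div] at h
      change ω (L (D.rep x⁻¹)) (L (1 - D.rep x⁻¹)) = _
      rw [← h]
      unfold sF
      rw [hL1]
      simp only [map_zero, LinearMap.zero_apply, add_zero, zero_add]
      rw [hωalt]
      have : (1 - D.rep x) = -(D.rep x - 1) := by ring
      rw [this, hωneg' _ _ (rd_ne D hr')]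
    · intro x w hx0 hx1 hw0 hw1 hxw
      exact hF2 x w hx0 hx1 hw0 hw1 hxw
  have hs : ∀ b ∈ D.S, ∀ d ∈ D.S, ∀ c ∈ D.S, b + d = c → sF ω (L b) (L d) (L c) = 0 := by
    intro b hb d hd c hc h
    have hd' : d = c - b := by rw [← h]; ring
    subst hd'
    rw [hF1 b hb c hc hd]
    apply hB
    · exact div_ne_zero (D.hSρ b hb) (D.hSρ c hc)
    · intro h1
      rw [div_eq_one_iff_eq (D.hSρ c hc)] at h1
      apply D.hSρ _ hd
      rw [map_sub, h1, sub_self]
  have hω0 := hAZ ω hωalt hωneg hs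
  have hω1 := ext_cl2 D hL ω hω0
  have hπ0 : ∀ u ∈ D.S, π (L u) = 0 := by
    apply hHOM R K D hK (fun u => π (L u))
    intro b hb c hc hbc
    have h1 := D.b1 b hb c hc hbc 1 one_ne_zero
    rw [D.rep1, mul_one, mul_one] at h1
    have hbc' : D.ρ b * D.ρ c ≠ 0 := mul_ne_zero (D.hSρ b hb) (D.hSρ c hc)
    have hr := rd_rep D hbc'
    have hM1 : b * c ∈ Submonoid.closure D.S :=
      mul_mem (Submonoid.subset_closure hb) (Submonoid.subset_closure hc)
    have hM2 : D.rep (D.ρ b * D.ρ c) ∈ Submonoid.closure D.S := Submonoid.subset_closure hr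
    have h3 : π (L (b * c)) = π (L (D.rep (D.ρ b * D.ρ c))) := by
      rcases D.b2 _ h1.1 _ h1.2 (by rw [map_mul, D.hrep]) with h2 | ⟨y, hy, h2⟩
      · rw [← h2]
      · have hy' : y ∈ Submonoid.closure D.S := Submonoid.subset_closure hy
        have := hPR _ hM1 _ hM2 y hy' h2
        rw [hω1 _ hy' _ hM2, hω1 _ hy' _ hM1, hω1 _ hM1 _ hM2] at this
        linarith
    change π (L (D.rep (D.ρ b * D.ρ c))) = π (L b) + π (L c)
    rw [← h3, hL _ _ (rd_ne D hb) (rd_ne D hc), map_add]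
  refine ⟨fun u hu v hv => hk0 u hu v hv, fun u hu v hv => ?_, hπ0⟩
  rw [hωT _ (Submonoid.subset_closure hu) _ (Submonoid.subset_closure hv)]
  exact hω0 u hu v hv

end Y775.W3
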