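import Pool.Agent.Y775.W3.Core

/-!
# Project W3: the rational numbers
-/

set_option autoImplicit false

namespace Y775.W3

section gen

variable {R W : Type} [CommRing R] [IsDomain R] [AddCommGroup W]

omit [CommRing R] [IsDomain R] in
theorem ext3 {L : R → W} (S S' : R → Prop)
    (hext : ∀ f : W →ₗ[ℤ] ℚ, (∀ a, S a → f (L a) = 0) → ∀ a, S' a → f (L a) = 0)
    (T : W →ₗ[ℤ] W →ₗ[ℤ] W →ₗ[ℤ] ℚ)
    (h : ∀ a b c, S a → S b → S c → T (L a) (L b) (L c) = 0) :
    ∀ a b c, S' a → S' b → S' c → T (L a) (L b) (L c) = 0 := by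
  have h1 : ∀ a b c, S a → S b → S' c → T (L a) (L b) (L c) = 0 := fun a b c ha hb hc =>
    hext (T (L a) (L b)) (fun c hc => h a b c ha hb hc) c hc
  have h2 : ∀ a b c, S a → S' b → S' c → T (L a) (L b) (L c) = 0 := by
    intro a b c ha hb hc
    have := hext ((T (L a)).flip (L c)) (fun b hb => by
      rw [LinearMap.flip_apply]; exact h1 a b c ha hb hc) b hb
    rwa [LinearMap.flip_apply] at this
  intro a b c ha hb hc
  have := hext ((T.flip (L b)).flip (L c)) (fun a ha => by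
    rw [LinearMap.flip_apply, LinearMap.flip_apply]; exact h2 a b c ha hb hc) a ha
  rwa [LinearMap.flip_apply, LinearMap.flip_apply] at this

omit [CommRing R] [IsDomain R] in
theorem ext2 {L : R → W} (S S' : R → Prop)
    (hext : ∀ f : W →ₗ[ℤ] ℚ, (∀ a, S a → f (L a) = 0) → ∀ a, S' a → f (L a) = 0)
    (T : W →ₗ[ℤ] W →ₗ[ℤ] ℚ)
    (h : ∀ a b, S a → S b → T (L a) (L b) = 0) :
    ∀ a b, S' a → S' b → T (L a) (L b) = 0 := by
  have h1 : ∀ a b, S a → S' b → T (L a) (L b) = 0 := fun a b ha hb =>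
    hext (T (L a)) (fun c hc => h a c ha hc) b hb
  intro a b ha hb
  have := hext (T.flip (L b)) (fun a ha => by
    rw [LinearMap.flip_apply]; exact h1 a b ha hb) a ha
  rwa [LinearMap.flip_apply] at this

end gen

/-- all eight cases. -/
theorem close8 {W : Type} [AddCommGroup W] (T : W →ₗ[ℤ] W →ₗ[ℤ] W →ₗ[ℤ] ℚ)
    (hsym : ∀ a b c, T a b c = T b a c) (hcyc : ∀ a b c, T a b c + T b c a + T c a b = 0)
    (P : W → Prop) (w : W) (h0 : ∀ a b c, P a → P b → P c → T a b c = 0)
    (h1 : ∀ a b, P a → P b → T a b w = 0) (h2 : ∀ a b, P a → P b → T w a b = 0)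
    (h3 : ∀ a, P a → T w w a = 0) :
    ∀ a b c, (P a ∨ a = w) → (P b ∨ b = w) → (P c ∨ c = w) → T a b c = 0 := by
  have h4 : ∀ a, P a → T w a w = 0 := by
    intro a ha
    have e1 := hcyc w w a
    have e2 := h3 a ha
    have e3 := hsym a w w
    linarith
  intro a b c ha hb hc
  rcases ha with ha | rfl <;> rcases hb with hb | rfl <;> rcases hc with hc | rfl
  · exact h0 a b c ha hb hc
  · exact h1 a b ha hb
  · rw [hsym]; exact h2 a c ha hc
  · rw [hsym]; exact h4 a ha
  · exact h2 b c hb hc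
  · exact h4 b hb
  · exact h3 c hc
  · have := hcyc c c c
    linarith

theorem int_main (hHOM : StmHOM) (hSUM : StmSUM) (hFIVE : StmFIVE) (hKAP : StmKAP)
    (hINT : StmINT) (hALTI : StmALTI) (hLOC : StmLOC)
    {W : Type} [AddCommGroup W] (L : ℤ → W) (hL : IsLog L)
    (T : W →ₗ[ℤ] W →ₗ[ℤ] W →ₗ[ℤ] ℚ)
    (hsym : ∀ a b c, T a b c = T b a c) (hcyc : ∀ a b c, T a b c + T b c a + T c a b = 0)
    (hrel : ∀ A B C : ℤ, A ≠ 0 → B ≠ 0 → C ≠ 0 → A + B = C →
      T (L A - L C) (L A - L C) (L B - L C) = 0) :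
    ∀ n : ℕ, ∀ a b c : ℤ, (a ≠ 0 ∧ a.natAbs < n) → (b ≠ 0 ∧ b.natAbs < n) →
      (c ≠ 0 ∧ c.natAbs < n) → T (L a) (L b) (L c) = 0 := by
  intro n
  induction n with
  | zero =>
    intro a b c ha
    exact absurd ha.2 (Nat.not_lt_zero _)
  | succ n IH =>
    by_cases hp : n.Prime
    · have : Fact n.Prime := ⟨hp⟩
      obtain ⟨D, hDp, -, hDS, -, -⟩ := hINT n
      have hS : ∀ a, a ∈ D.S ↔ (a ≠ 0 ∧ a.natAbs < n) := by
        intro a; rw [hDS]; rfl
      have hst := prime_step hHOM hSUM hFIVE hKAP D (hLOC.2.2 n)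
        (by rw [hDp]; exact_mod_cast hp.ne_zero) L hL T hsym hcyc hrel
        (fun a ha b hb c hc => IH a b c ((hS a).1 ha) ((hS b).1 hb) ((hS c).1 hc))
        (by rw [hDS]; exact hALTI W L hL n)
      obtain ⟨g1, g2, g3⟩ := hst
      rw [hDp] at g1 g2 g3
      have key := close8 T hsym hcyc (fun x => ∃ a : ℤ, (a ≠ 0 ∧ a.natAbs < n) ∧ x = L a)
        (L (n : ℤ))
        (by
          rintro _ _ _ ⟨a, ha, rfl⟩ ⟨b, hb, rfl⟩ ⟨c, hc, rfl⟩
          exact IH a b c ha hb hc)
        (by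
          rintro _ _ ⟨a, ha, rfl⟩ ⟨b, hb, rfl⟩
          exact g1 a ((hS a).2 ha) b ((hS b).2 hb))
        (by
          rintro _ _ ⟨a, ha, rfl⟩ ⟨b, hb, rfl⟩
          exact g2 a ((hS a).2 ha) b ((hS b).2 hb))
        (by
          rintro _ ⟨a, ha, rfl⟩
          exact g3 a ((hS a).2 ha))
      apply ext3 (L := L) (fun a => (a ≠ 0 ∧ a.natAbs < n) ∨ a = n)
      · intro f hf a ha
        rcases Nat.lt_or_ge a.natAbs n with h | h
        · exact hf a (Or.inl ⟨ha.1, h⟩)
        · have h2 : a.natAbs = n := by omega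
          rcases Int.natAbs_eq a with h3 | h3
          · rw [h3, h2]; exact hf n (Or.inr rfl)
          · rw [h3, h2, lin_neg hL f _ (by exact_mod_cast hp.ne_zero)]; exact hf n (Or.inr rfl)
      · intro a b c ha hb hc
        apply key
        · rcases ha with ha | rfl
          · exact Or.inl ⟨a, ha, rfl⟩
          · exact Or.inr rfl
        · rcases hb with hb | rfl
          · exact Or.inl ⟨b, hb, rfl⟩
          · exact Or.inr rfl
        · rcases hc with hc | rfl
          · exact Or.inl ⟨c, hc, rfl⟩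
          · exact Or.inr rfl
    · apply ext3 (L := L) (fun a => (a ≠ 0 ∧ a.natAbs < n)) _ _ T IH
      intro f hf a ha
      rcases Nat.lt_or_ge a.natAbs n with h | h
      · exact hf a ⟨ha.1, h⟩
      · have h2 : a.natAbs = n := by omega
        have hn0 : n ≠ 0 := by
          rintro rfl
          exact ha.1 (Int.natAbs_eq_zero.1 h2)
        by_cases hn1 : n = 1
        · rcases Int.natAbs_eq a with h3 | h3
          · rw [h3, h2, hn1, Nat.cast_one, L_one hL, map_zero]
          · rw [h3, h2, hn1, Nat.cast_one, lin_neg hL f _ one_ne_zero, L_one hL, map_zero]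
        · obtain ⟨m1, hm1, hm2, hm3⟩ := Nat.exists_dvd_of_not_prime (by omega) hp
          obtain ⟨m2, rfl⟩ := hm1
          have hm10 : m1 ≠ 0 := by rintro rfl; simp at hn0
          have hm20 : m2 ≠ 0 := by rintro rfl; simp at hn0
          have hm21 : m2 ≠ 1 := by rintro rfl; simp at hm3
          have hf1 : f (L (m1 : ℤ)) = 0 := by
            apply hf
            refine ⟨by exact_mod_cast hm10, ?_⟩
            rw [Int.natAbs_natCast]
            nlinarith [Nat.pos_of_ne_zero hm10, Nat.one_lt_iff_ne_zero_and_ne_one.2 ⟨hm20, hm21⟩]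
          have hf2 : f (L (m2 : ℤ)) = 0 := by
            apply hf
            refine ⟨by exact_mod_cast hm20, ?_⟩
            rw [Int.natAbs_natCast]
            nlinarith [Nat.pos_of_ne_zero hm20, Nat.one_lt_iff_ne_zero_and_ne_one.2 ⟨hm10, hm2⟩]
          have hf3 : f (L ((m1 * m2 : ℕ) : ℤ)) = 0 := by
            rw [Nat.cast_mul, hL _ _ (by exact_mod_cast hm10) (by exact_mod_cast hm20), map_add,
              hf1, hf2, add_zero]
          rcases Int.natAbs_eq a with h3 | h3
          · rw [h3, h2]; exact hf3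
          · rw [h3, h2, lin_neg hL f _ (by exact_mod_cast hn0)]; exact hf3

end Y775.W3
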