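import Pool.Agent.Y775.W3.PolyMain

/-!
# Project W3: rational functions, end of the induction
-/

set_option autoImplicit false

namespace Y775.W3

open Polynomial

theorem poly_main (hHOM : StmHOM) (hSUM : StmSUM) (hFIVE : StmFIVE) (hKAP : StmKAP)
    (hPOLY : StmPOLY) {k : Type} [Field k] {W : Type} [AddCommGroup W]
    (hLF : ∀ (P : k[X]) [Fact (Irreducible P)], LocFin (AdjoinRoot P))
    (L : k[X] → W) (hL : IsLog L)
    (hAZ : ∀ n : ℕ, AltZ {a : k[X] | a ≠ 0 ∧ a.natDegree < n} L)
    (hconst : ∀ c : k, c ≠ 0 → ∃ N : ℕ, 0 < N ∧ N • L (C c) = 0)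
    (T : W →ₗ[ℤ] W →ₗ[ℤ] W →ₗ[ℤ] ℚ)
    (hsym : ∀ a b c, T a b c = T b a c) (hcyc : ∀ a b c, T a b c + T b c a + T c a b = 0)
    (hrel : ∀ A B C : k[X], A ≠ 0 → B ≠ 0 → C ≠ 0 → A + B = C →
      T (L A - L C) (L A - L C) (L B - L C) = 0) :
    ∀ n : ℕ, ∀ a b c : k[X], (a ≠ 0 ∧ a.natDegree < n) → (b ≠ 0 ∧ b.natDegree < n) →
      (c ≠ 0 ∧ c.natDegree < n) → T (L a) (L b) (L c) = 0 := by
  classical
  have hf0 : ∀ (f : W →ₗ[ℤ] ℚ) (c : k), c ≠ 0 → f (L (C c)) = 0 := by
    intro f c hc
    obtain ⟨N, hN, h⟩ := hconst c hc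
    have h1 : N • f (L (C c)) = 0 := by rw [← map_nsmul, h, map_zero]
    rw [nsmul_eq_mul] at h1
    rcases mul_eq_zero.1 h1 with h2 | h2
    · exact absurd h2 (by exact_mod_cast hN.ne')
    · exact h2
  intro n
  induction n with
  | zero =>
    intro a b c ha
    exact absurd ha.2 (Nat.not_lt_zero _)
  | succ n IH =>
    rcases Nat.eq_zero_or_pos n with hn | hn
    · subst hn
      apply ext3 (L := L) (fun a => (a ≠ 0 ∧ a.natDegree < 0)) _ _ T IH
      intro f _ a ha
      have h1 : a = C (a.coeff 0) := eq_C_of_natDegree_eq_zero (by omega)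
      rw [h1]
      apply hf0
      intro h
      apply ha.1
      rw [h1, h, C_0]
    · have hPF : ∀ P : k[X], P.Monic → Irreducible P → P.natDegree = n → PF T L n P := by
        intro P hm hi hd
        have : Fact (Irreducible P) := ⟨hi⟩
        obtain ⟨D, hDp, -, hDS, -, -⟩ := hPOLY k P hm
        have hS : ∀ a, a ∈ D.S ↔ (a ≠ 0 ∧ a.natDegree < n) := by
          intro a; rw [hDS, hd]; rfl
        have hst := prime_step hHOM hSUM hFIVE hKAP D (hLF P)
          (by rw [hDp]; exact hm.ne_zero) L hL T hsym hcyc hrel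
          (fun a ha b hb c hc => IH a b c ((hS a).1 ha) ((hS b).1 hb) ((hS c).1 hc))
          (by rw [hDS]; exact hAZ _)
        obtain ⟨g1, g2, g3⟩ := hst
        rw [hDp] at g1 g2 g3
        exact ⟨hm, hi, hd,
          fun u v hu hu' hv hv' => g1 u ((hS u).2 ⟨hu, hu'⟩) v ((hS v).2 ⟨hv, hv'⟩),
          fun u v hu hu' hv hv' => g2 u ((hS u).2 ⟨hu, hu'⟩) v ((hS v).2 ⟨hv, hv'⟩),
          fun u hu hu' => g3 u ((hS u).2 ⟨hu, hu'⟩)⟩
      have IH' : ∀ a b c : k[X], a ≠ 0 → a.natDegree < n → b ≠ 0 → b.natDegree < n → c ≠ 0 →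
          c.natDegree < n → T (L a) (L b) (L c) = 0 :=
        fun a b c h1 h2 h3 h4 h5 h6 => IH a b c ⟨h1, h2⟩ ⟨h3, h4⟩ ⟨h5, h6⟩
      have hc2 : ∀ P P' : k[X], PF T L n P → PF T L n P' → P ≠ P' → T (L P) (L P) (L P') = 0 ∧
          ∀ u : k[X], u ≠ 0 → u.natDegree < n → T (L P) (L u) (L P') = 0 :=
        fun P P' hP hP' hne => cross2 hHOM hPOLY hLF L hL T hsym hrel n IH' P P' hP hP' hne
      have hself : ∀ w, T w w w = 0 := fun w => by have := hcyc w w w; linarith
      have d1 : ∀ P P' : k[X], PF T L n P → PF T L n P' → P ≠ P' →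
          T (L P) (L P') (L P') = 0 := by
        intro P P' hP hP' hne
        have e1 := hcyc (L P') (L P') (L P)
        have e2 := hsym (L P) (L P') (L P')
        have e3 := (hc2 P' P hP' hP hne.symm).1
        linarith
      have d2 : ∀ P P' u : k[X], PF T L n P → PF T L n P' → u ≠ 0 → u.natDegree < n →
          T (L P) (L P') (L u) = 0 := by
        intro P P' u hP hP' hu hu'
        by_cases hne : P = P'
        · subst hne; exact hP.f3 u hu hu'
        · have e1 := hcyc (L P) (L P') (L u)
          have e2 := (hc2 P P' hP hP' hne).2 u hu hu'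
          have e3 := (hc2 P' P hP' hP (Ne.symm hne)).2 u hu hu'
          have e4 := hsym (L u) (L P) (L P')
          linarith
      have d3 : ∀ P P' u : k[X], PF T L n P → PF T L n P' → u ≠ 0 → u.natDegree < n →
          T (L P) (L u) (L P') = 0 := by
        intro P P' u hP hP' hu hu'
        by_cases hne : P = P'
        · subst hne
          have e1 := hcyc (L P) (L P) (L u)
          have e2 := hP.f3 u hu hu'
          have e4 := hsym (L u) (L P) (L P)
          linarith
        · exact (hc2 P P' hP hP' hne).2 u hu hu'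
      have d4 : ∀ P P' P'' : k[X], PF T L n P → PF T L n P' → PF T L n P'' →
          T (L P) (L P') (L P'') = 0 := by
        intro P P' P'' hP hP' hP''
        by_cases h1 : P = P'
        · subst h1
          by_cases h2 : P = P''
          · subst h2; exact hself _
          · exact (hc2 P P'' hP hP'' h2).1
        · by_cases h2 : P = P''
          · subst h2
            rw [hsym]
            exact d1 P' P hP' hP (Ne.symm h1)
          · by_cases h3 : P' = P''
            · subst h3
              exact d1 P P' hP hP' h1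
            · exact cross3 hPOLY L hL T hsym hcyc hrel n IH' hc2 P P' P'' hP hP' hP'' h1 h2 h3
      apply ext3 (L := L) (fun a => (a ≠ 0 ∧ a.natDegree < n) ∨ PF T L n a)
      · intro f hf a ha
        have hsm : ∀ b : k[X], b ≠ 0 → b.natDegree < n → f (L b) = 0 :=
          fun b hb hb' => hf b (Or.inl ⟨hb, hb'⟩)
        rcases Nat.lt_or_ge a.natDegree n with h | h
        · exact hsm a ha.1 h
        · have h2 : a.natDegree = n := by omega
          by_cases hi : Irreducible a
          · have hlc : a.leadingCoeff ≠ 0 := leadingCoeff_ne_zero.2 ha.1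
            have hm : (a * C a.leadingCoeff⁻¹).Monic := monic_mul_leadingCoeff_inv ha.1
            have hass : Associated a (a * C a.leadingCoeff⁻¹) := by
              refine associated_mul_unit_right a _ ?_
              rw [isUnit_C]
              exact (inv_ne_zero hlc).isUnit
            have h3 := hPF _ hm (hass.irreducible hi) (by
              rw [← h2, natDegree_mul ha.1 (C_ne_zero.2 (inv_ne_zero hlc)), natDegree_C, add_zero])
            have h4 := hf _ (Or.inr h3)
            rw [hL _ _ ha.1 (C_ne_zero.2 (inv_ne_zero hlc)), map_add,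
              hf0 f _ (inv_ne_zero hlc), add_zero] at h4
            exact h4
          · have hu : ¬ IsUnit a := by
              intro h3
              have := natDegree_eq_zero_of_isUnit h3
              omega
            rw [irreducible_iff] at hi
            push Not at hi
            obtain ⟨b, c, h3, h4, h5⟩ := hi hu
            have hb0 : b ≠ 0 := by rintro rfl; rw [zero_mul] at h3; exact ha.1 h3
            have hc0 : c ≠ 0 := by rintro rfl; rw [mul_zero] at h3; exact ha.1 h3
            have hbd : b.natDegree ≠ 0 := by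
              intro h6
              exact h4 (isUnit_iff_degree_eq_zero.2 (by rw [degree_eq_natDegree hb0, h6]; rfl))
            have hcd : c.natDegree ≠ 0 := by
              intro h6
              exact h5 (isUnit_iff_degree_eq_zero.2 (by rw [degree_eq_natDegree hc0, h6]; rfl))
            have h7 : b.natDegree + c.natDegree = n := by
              rw [← natDegree_mul hb0 hc0, ← h3, h2]
            rw [h3, hL _ _ hb0 hc0, map_add, hsm b hb0 (by omega), hsm c hc0 (by omega), add_zero]
      · intro a b c ha hb hc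
        rcases ha with ha | ha <;> rcases hb with hb | hb <;> rcases hc with hc | hc
        · exact IH a b c ha hb hc
        · exact hc.f1 a b ha.1 ha.2 hb.1 hb.2
        · rw [hsym]; exact hb.f2 a c ha.1 ha.2 hc.1 hc.2
        · rw [hsym]; exact d3 b c a hb hc ha.1 ha.2
        · exact ha.f2 b c hb.1 hb.2 hc.1 hc.2
        · exact d3 a c b ha hc hb.1 hb.2
        · exact d2 a b c ha hb hc.1 hc.2
        · exact d4 a b c ha hb hc

end Y775.W3
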