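import Pool.Agent.Y775.W3.IntMain

/-!
# Project W3: rational functions over a locally finite field
-/

set_option autoImplicit false

namespace Y775.W3

open Polynomial

theorem tors_of_locFin {K : Type} [Field K] (hK : LocFin K) (x : K) (hx : x ≠ 0) :
    ∃ N : ℕ, 0 < N ∧ x ^ N = 1 := by
  obtain ⟨F, hF, hF1⟩ := hK x
  have : Finite F := hF
  let u : Fˣ := Units.mk0 ⟨x, hF1⟩ (by
    intro h
    exact hx (congrArg Subtype.val h))
  refine ⟨orderOf u, orderOf_pos u, ?_⟩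
  have h1 := pow_orderOf_eq_one u
  have h2 : (u : F) ^ orderOf u = 1 := by rw [← Units.val_pow_eq_pow_val, h1]; rfl
  have h3 := congrArg Subtype.val h2
  rw [SubmonoidClass.coe_pow] at h3
  exact h3

section cross

variable {k : Type} [Field k] {W : Type} [AddCommGroup W]

/-- degree bound for quotients -/
theorem quot_deg {P a y : k[X]} (hP : P ≠ 0) (h : a = P * y) {N : ℕ} (hy : y ≠ 0)
    (ha : a.natDegree < P.natDegree + N) : y.natDegree < N := by
  rw [h, natDegree_mul hP hy] at ha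
  omega

theorem not_dvd_small {P a : k[X]} (ha : a ≠ 0) (h : a.natDegree < P.natDegree) : ¬ P ∣ a :=
  fun hd => absurd (natDegree_le_of_dvd hd ha) (by omega)

/-- the facts at a prime of degree `n` -/
structure PF (T : W →ₗ[ℤ] W →ₗ[ℤ] W →ₗ[ℤ] ℚ) (L : k[X] → W) (n : ℕ) (P : k[X]) : Prop where
  mon : P.Monic
  irr : Irreducible P
  deg : P.natDegree = n
  f1 : ∀ u v : k[X], u ≠ 0 → u.natDegree < n → v ≠ 0 → v.natDegree < n → T (L u) (L v) (L P) = 0
  f2 : ∀ u v : k[X], u ≠ 0 → u.natDegree < n → v ≠ 0 → v.natDegree < n → T (L P) (L u) (L v) = 0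
  f3 : ∀ u : k[X], u ≠ 0 → u.natDegree < n → T (L P) (L P) (L u) = 0

/-- two different primes of the same degree -/
theorem cross2 (hHOM : StmHOM) (hPOLY : StmPOLY) (hLF : ∀ (P : k[X]) [Fact (Irreducible P)],
      LocFin (AdjoinRoot P))
    (L : k[X] → W) (hL : IsLog L) (T : W →ₗ[ℤ] W →ₗ[ℤ] W →ₗ[ℤ] ℚ)
    (hsym : ∀ a b c, T a b c = T b a c)
    (hrel : ∀ A B C : k[X], A ≠ 0 → B ≠ 0 → C ≠ 0 → A + B = C →
      T (L A - L C) (L A - L C) (L B - L C) = 0)
    (n : ℕ) (IH : ∀ a b c : k[X], a ≠ 0 → a.natDegree < n → b ≠ 0 → b.natDegree < n → c ≠ 0 →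
      c.natDegree < n → T (L a) (L b) (L c) = 0)
    (P P' : k[X]) (hP : PF T L n P) (hP' : PF T L n P') (hne : P ≠ P') :
    T (L P) (L P) (L P') = 0 ∧
      ∀ u : k[X], u ≠ 0 → u.natDegree < n → T (L P) (L u) (L P') = 0 := by
  classical
  have : Fact (Irreducible P') := ⟨hP'.irr⟩
  obtain ⟨D, hDp, hDρ, hDS, hDA, hDr⟩ := hPOLY k P' hP'.mon
  have hn : 0 < n := by rw [← hP.deg]; exact hP.irr.natDegree_pos
  have hS : ∀ a, a ∈ D.S ↔ (a ≠ 0 ∧ a.natDegree < n) := by
    intro a; rw [hDS, hP'.deg]; rfl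
  have hP0 := hP.mon.ne_zero
  have hP'0 := hP'.mon.ne_zero
  have hPn : ¬ P' ∣ P := by
    intro h
    exact hne (eq_of_monic_of_associated hP.mon hP'.mon
      ((hP'.irr.associated_of_dvd hP.irr h).symm))
  have hρP : D.ρ P ≠ 0 := by
    intro h
    rw [D.hp, hDp] at h
    exact hPn h
  -- the basic relation
  have rel : ∀ a b c : k[X], a ∈ Submonoid.closure D.S → b ∈ D.S → c ∈ Submonoid.closure D.S →
      P * a + P' * b = c →
      T (L P) (L P) (L P') + 2 * (T (L P) (L a) (L P') - T (L P) (L c) (L P')) = 0 := by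
    intro a b c ha hb hc h
    have ha0 := rd_cl_ne D ha
    have hb0 := rd_ne D hb
    have hc0 := rd_cl_ne D hc
    have hb' : b ∈ Submonoid.closure D.S := Submonoid.subset_closure hb
    have hr := hrel (P * a) (P' * b) c (mul_ne_zero hP0 ha0) (mul_ne_zero hP'0 hb0) hc0 h
    rw [hL _ _ hP0 ha0, hL _ _ hP'0 hb0] at hr
    have IH' := ext_cl3 D hL T (fun a ha b hb c hc => IH a b c ((hS a).1 ha).1 ((hS a).1 ha).2
      ((hS b).1 hb).1 ((hS b).1 hb).2 ((hS c).1 hc).1 ((hS c).1 hc).2)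
    have f3 := ext_cl D hL (T (L P) (L P)) (fun u hu => hP.f3 u ((hS u).1 hu).1 ((hS u).1 hu).2)
    have f2 := ext_cl2 D hL (T (L P)) (fun u hu v hv => hP.f2 u v ((hS u).1 hu).1 ((hS u).1 hu).2
      ((hS v).1 hv).1 ((hS v).1 hv).2)
    have f1 := ext_cl2 D hL (LinearMap.mk₂ ℤ (fun a b => T a b (L P'))
      (fun a b c => by simp) (fun a b c => by simp) (fun a b c => by simp) (fun a b c => by simp))
      (fun u hu v hv => hP'.f1 u v ((hS u).1 hu).1 ((hS u).1 hu).2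
      ((hS v).1 hv).1 ((hS v).1 hv).2)
    have f1' : ∀ u ∈ Submonoid.closure D.S, ∀ v ∈ Submonoid.closure D.S,
      T (L u) (L v) (L P') = 0 := fun u hu v hv => f1 u hu v hv
    simp only [map_add, map_sub, LinearMap.sub_apply, LinearMap.add_apply] at hr
    rw [hsym (L a) (L P), hsym (L c) (L P), hsym (L a) (L P), hsym (L c) (L P),
      hsym (L a) (L P), hsym (L c) (L P)] at hr
    simp only [IH' _ ha _ ha _ hb', IH' _ ha _ ha _ hc, IH' _ ha _ hc _ hb', IH' _ ha _ hc _ hc,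
      IH' _ hc _ ha _ hb', IH' _ hc _ ha _ hc, IH' _ hc _ hc _ hb', IH' _ hc _ hc _ hc,
      f1' _ ha _ ha, f1' _ ha _ hc, f1' _ hc _ ha, f1' _ hc _ hc, f2 _ ha _ hb', f2 _ ha _ hc,
      f2 _ hc _ hb', f2 _ hc _ hc, f3 _ hb', f3 _ hc] at hr
    linarith
  set κ0 := T (L P) (L P) (L P') with hκ0
  set τ : k[X] → ℚ := fun u => T (L P) (L u) (L P') with hτ
  -- existence
  have ex : ∀ a c : k[X], a ∈ D.S → c ≠ 0 → D.ρ (P * a) = D.ρ c →
      c.natDegree < n + n → c ≠ P * a → ∃ b ∈ D.S, P * a + P' * b = c := by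
    intro a c ha hc h hcd hne'
    have h1 : D.ρ (c - P * a) = 0 := by rw [map_sub, h, sub_self]
    rw [D.hp, hDp] at h1
    obtain ⟨b, hb⟩ := h1
    have hb0 : b ≠ 0 := by
      rintro rfl
      rw [mul_zero, sub_eq_zero] at hb
      exact hne' hb
    refine ⟨b, (hS b).2 ⟨hb0, ?_⟩, by rw [← hb]; ring⟩
    apply quot_deg hP'0 hb hb0
    have h2 : (P * a).natDegree < n + n := by
      rw [natDegree_mul hP0 (rd_ne D ha), hP.deg]
      have := ((hS a).1 ha).2
      omega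
    calc (c - P * a).natDegree ≤ max c.natDegree (P * a).natDegree := natDegree_sub_le _ _
      _ < P'.natDegree + n := by rw [hP'.deg]; exact max_lt hcd h2
  have hrepS : ∀ x : AdjoinRoot P', x ≠ 0 → D.rep x ∈ D.S := fun x hx => rd_rep D hx
  -- tau shift
  have shift : ∀ x : AdjoinRoot P', x ≠ 0 →
      κ0 + 2 * (τ (D.rep x) - τ (D.rep (D.ρ P * x))) = 0 := by
    intro x hx
    have ha := hrepS x hx
    have hc := hrepS (D.ρ P * x) (mul_ne_zero hρP hx)
    have hc' := (hS _).1 hc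
    obtain ⟨b, hb, hb'⟩ := ex (D.rep x) (D.rep (D.ρ P * x)) ha hc'.1
      (by rw [map_mul, D.hrep, D.hrep]) (by omega) (by
        intro h
        have h2 := congrArg natDegree h
        rw [natDegree_mul hP0 (rd_ne D ha), hP.deg] at h2
        omega)
    exact rel _ b _ (Submonoid.subset_closure ha) hb (Submonoid.subset_closure hc) hb'
  have iter : ∀ (i : ℕ) (x : AdjoinRoot P'), x ≠ 0 →
      i * κ0 + 2 * (τ (D.rep x) - τ (D.rep (D.ρ P ^ i * x))) = 0 := by
    intro i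
    induction i with
    | zero => intro x _; simp
    | succ i ih =>
      intro x hx
      have h1 := ih (D.ρ P * x) (mul_ne_zero hρP hx)
      have h2 := shift x hx
      rw [← mul_assoc, ← pow_succ] at h1
      push_cast
      linarith
  obtain ⟨N, hN, hN1⟩ := tors_of_locFin (hLF P') (D.ρ P) hρP
  have hκ00 : κ0 = 0 := by
    have h1 := iter N 1 one_ne_zero
    rw [hN1, one_mul, sub_self, mul_zero, add_zero] at h1
    rcases mul_eq_zero.1 h1 with h | h
    · exact absurd h (by exact_mod_cast hN.ne')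
    · exact h
  refine ⟨hκ00, ?_⟩
  have hτ0 : ∀ u ∈ D.S, τ u = 0 := by
    apply hHOM _ _ D (hLF P') τ
    intro b hb c hc _
    have hb0 := (hS b).1 hb
    have hc0 := (hS c).1 hc
    have hρ0 : D.ρ b * D.ρ c ≠ 0 := mul_ne_zero (D.hSρ b hb) (D.hSρ c hc)
    have hx : D.ρ b * D.ρ c / D.ρ P ≠ 0 := div_ne_zero hρ0 hρP
    have ha := hrepS _ hx
    have hbc : b * c ∈ Submonoid.closure D.S :=
      mul_mem (Submonoid.subset_closure hb) (Submonoid.subset_closure hc)
    obtain ⟨y, hy, hy'⟩ := ex _ (b * c) ha (mul_ne_zero hb0.1 hc0.1)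
      (by rw [map_mul, D.hrep, map_mul]; field_simp)
      (by rw [natDegree_mul hb0.1 hc0.1]; omega)
      (by
        intro h
        have hd : P ∣ b * c := by rw [h]; exact dvd_mul_right _ _
        rcases hP.irr.prime.dvd_or_dvd hd with h1 | h1
        · exact not_dvd_small hb0.1 (by rw [hP.deg]; exact hb0.2) h1
        · exact not_dvd_small hc0.1 (by rw [hP.deg]; exact hc0.2) h1)
    have h1 := rel _ y _ (Submonoid.subset_closure ha) hy hbc hy'
    have h2 := shift _ hx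
    rw [mul_div_cancel₀ _ hρP] at h2
    rw [hL _ _ hb0.1 hc0.1] at h1
    simp only [map_add, LinearMap.add_apply] at h1
    simp only [hτ] at h2 ⊢
    linarith
  intro u hu hu'
  exact hτ0 u ((hS u).2 ⟨hu, hu'⟩)

/-- three different primes of the same degree -/
theorem cross3 (hPOLY : StmPOLY)
    (L : k[X] → W) (hL : IsLog L) (T : W →ₗ[ℤ] W →ₗ[ℤ] W →ₗ[ℤ] ℚ)
    (hsym : ∀ a b c, T a b c = T b a c) (hcyc : ∀ a b c, T a b c + T b c a + T c a b = 0)
    (hrel : ∀ A B C : k[X], A ≠ 0 → B ≠ 0 → C ≠ 0 → A + B = C →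
      T (L A - L C) (L A - L C) (L B - L C) = 0)
    (n : ℕ) (IH : ∀ a b c : k[X], a ≠ 0 → a.natDegree < n → b ≠ 0 → b.natDegree < n → c ≠ 0 →
      c.natDegree < n → T (L a) (L b) (L c) = 0)
    (hc2 : ∀ P P' : k[X], PF T L n P → PF T L n P' → P ≠ P' → T (L P) (L P) (L P') = 0 ∧
      ∀ u : k[X], u ≠ 0 → u.natDegree < n → T (L P) (L u) (L P') = 0)
    (P P' P'' : k[X]) (hP : PF T L n P) (hP' : PF T L n P') (hP'' : PF T L n P'')
    (h1 : P ≠ P') (h2 : P ≠ P'') (h3 : P' ≠ P'') :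
    T (L P) (L P') (L P'') = 0 := by
  classical
  have : Fact (Irreducible P'') := ⟨hP''.irr⟩
  obtain ⟨D, hDp, hDρ, hDS, hDA, hDr⟩ := hPOLY k P'' hP''.mon
  have hn : 0 < n := by rw [← hP.deg]; exact hP.irr.natDegree_pos
  have hS : ∀ a, a ∈ D.S ↔ (a ≠ 0 ∧ a.natDegree < n) := by
    intro a; rw [hDS, hP''.deg]; rfl
  have hP0 := hP.mon.ne_zero
  have hP'0 := hP'.mon.ne_zero
  have hP''0 := hP''.mon.ne_zero
  have nd : ∀ Q : k[X], PF T L n Q → Q ≠ P'' → D.ρ Q ≠ 0 := by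
    intro Q hQ hne h
    rw [D.hp, hDp] at h
    exact hne (eq_of_monic_of_associated hQ.mon hP''.mon
      ((hP''.irr.associated_of_dvd hQ.irr h).symm))
  have hρ1 := nd P hP h2
  have hρ2 := nd P' hP' h3
  set a := D.rep (D.ρ P' / D.ρ P) with ha
  have haS : a ∈ D.S := rd_rep D (div_ne_zero hρ2 hρ1)
  have ha' := (hS a).1 haS
  have h4 : D.ρ (P' - P * a) = 0 := by
    rw [map_sub, map_mul, ha, D.hrep, mul_div_cancel₀ _ hρ1, sub_self]
  rw [D.hp, hDp] at h4
  obtain ⟨b, hb⟩ := h4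
  have hb0 : b ≠ 0 := by
    rintro rfl
    rw [mul_zero, sub_eq_zero] at hb
    exact h1 (eq_of_monic_of_associated hP.mon hP'.mon
      (hP.irr.associated_of_dvd hP'.irr ⟨a, hb⟩))
  have hbd : b.natDegree < n := by
    apply quot_deg hP''0 hb hb0
    have e2 : (P * a).natDegree < n + n := by
      rw [natDegree_mul hP0 ha'.1, hP.deg]
      omega
    calc (P' - P * a).natDegree ≤ max P'.natDegree (P * a).natDegree := natDegree_sub_le _ _
      _ < P''.natDegree + n := by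
        rw [hP''.deg]
        exact max_lt (by rw [hP'.deg]; omega) e2
  have hr := hrel (P * a) (P'' * b) P' (mul_ne_zero hP0 ha'.1) (mul_ne_zero hP''0 hb0) hP'0
    (by rw [← hb]; ring)
  rw [hL _ _ hP0 ha'.1, hL _ _ hP''0 hb0] at hr
  -- all the vanishing terms
  have c12 := hc2 P P' hP hP' h1
  have c13 := hc2 P P'' hP hP'' h2
  have c21 := hc2 P' P hP' hP h1.symm
  have c23 := hc2 P' P'' hP' hP'' h3
  have hself : ∀ w, T w w w = 0 := fun w => by have := hcyc w w w; linarith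
  have d1 : T (L P) (L P') (L P') = 0 := by
    have e1 := hcyc (L P') (L P') (L P)
    have e2 := hsym (L P) (L P') (L P')
    have e3 := c21.1
    linarith
  have d2 : ∀ u : k[X], u ≠ 0 → u.natDegree < n → T (L P) (L P') (L u) = 0 := by
    intro u hu hu'
    have e1 := hcyc (L P) (L P') (L u)
    have e2 := c12.2 u hu hu'
    have e3 := c21.2 u hu hu'
    have e4 := hsym (L u) (L P) (L P')
    linarith
  have d3 : ∀ Q : k[X], PF T L n Q → ∀ u : k[X], u ≠ 0 → u.natDegree < n →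
      T (L Q) (L u) (L Q) = 0 := by
    intro Q hQ u hu hu'
    have e1 := hcyc (L Q) (L Q) (L u)
    have e2 := hQ.f3 u hu hu'
    have e4 := hsym (L u) (L Q) (L Q)
    linarith
  simp only [map_add, map_sub, LinearMap.sub_apply, LinearMap.add_apply] at hr
  rw [hsym (L P') (L P), hsym (L a) (L P), hsym (L a) (L P'), hsym (L P') (L P),
    hsym (L a) (L P), hsym (L a) (L P'), hsym (L P') (L P), hsym (L a) (L P),
    hsym (L a) (L P')] at hr
  simp only [c12.1, c13.1, c21.1, c23.1, d1, hself, hP.f3 b hb0 hbd, hP'.f3 b hb0 hbd,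
    c13.2 a ha'.1 ha'.2, c12.2 a ha'.1 ha'.2, c23.2 a ha'.1 ha'.2, d3 P' hP' a ha'.1 ha'.2,
    d2 b hb0 hbd, hP''.f1 a a ha'.1 ha'.2 ha'.1 ha'.2, hP'.f1 a a ha'.1 ha'.2 ha'.1 ha'.2,
    hP.f2 a b ha'.1 ha'.2 hb0 hbd, hP'.f2 a b ha'.1 ha'.2 hb0 hbd,
    IH a a b ha'.1 ha'.2 ha'.1 ha'.2 hb0 hbd] at hr
  linarith

end cross

end Y775.W3
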