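import Mathlib

/-!
# Project W3: statements

`Sym²(F^*) ⊗ F^*` is rationally spanned by the elements `f² ⊗ (1-f)`, for `F = k(x)`, `k` algebraic
over `F_ℓ` (for instance finite), and for `F = ℚ`.
-/

set_option autoImplicit false

namespace Y775.W3

open Polynomial

/-- Residue data at a prime `p` of a domain `R`: residue field `K = R/p`, a section `rep`, a set
`S` of small elements, admissible pairs, a size `μ`, a box. -/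
structure RD (R K : Type) [CommRing R] [IsDomain R] [Field K] where
  p : R
  ρ : R →+* K
  rep : K → R
  hp : ∀ a, ρ a = 0 ↔ p ∣ a
  hrep : ∀ x, ρ (rep x) = x
  rep0 : rep 0 = 0
  rep1 : rep 1 = 1
  S : Set R
  hSρ : ∀ a ∈ S, ρ a ≠ 0
  s2 : ∀ x y, x ≠ y → rep x - rep y ∈ S
  s3 : ∀ b ∈ S, ∀ c ∈ S, ∀ x, x * ρ c = ρ b →
    ∃ y, rep x * c - b = p * y ∧ (y = 0 ∨ y ∈ S)
  s4 : ∀ x w, x ≠ 0 → x ≠ 1 → w ≠ 0 → w ≠ 1 → x ≠ w →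
    ∃ m, rep x * (rep w - 1) - (rep w - rep x) * rep (x * (w - 1) / (w - x)) = p * m ∧
      (m = 0 ∨ m ∈ S)
  Adm : R → R → Prop
  μ : R → ℕ
  adm1 : Adm 1 1
  euclid : ∀ x, x ≠ 0 → ∀ c ∈ S, ¬ Adm (rep x) c →
    ∃ y ∈ S, μ y < μ c ∧ Adm (rep x) y ∧ μ (rep (x * ρ y)) < μ (rep x)
  Box : Set R
  b1 : ∀ b ∈ S, ∀ c ∈ S, Adm b c → ∀ x, x ≠ 0 →
    b * c * rep x ∈ Box ∧ rep (ρ b * ρ c) * rep x ∈ Box
  b2 : ∀ A₁ ∈ Box, ∀ A₂ ∈ Box, ρ A₁ = ρ A₂ → A₁ = A₂ ∨ ∃ y ∈ S, A₁ - A₂ = p * y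

/-- every element lies in a finite subfield -/
def LocFin (K : Type) [Field K] : Prop := ∀ x : K, ∃ F : Subfield K, Finite F ∧ x ∈ F

/-- a logarithm on the nonzero elements -/
def IsLog {R W : Type} [CommRing R] [AddCommGroup W] (L : R → W) : Prop :=
  ∀ a b, a ≠ 0 → b ≠ 0 → L (a * b) = L a + L b

/-- the cyclic sum -/
def sF {W : Type} [AddCommGroup W] (ω : W →ₗ[ℤ] W →ₗ[ℤ] ℚ) (a b c : W) : ℚ :=
  ω a b + ω b c + ω c a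

/-- SUM: the five term relation on a locally finite field. -/
def StmSUM : Prop := ∀ (K : Type) [Field K], LocFin K → ∀ B : K → ℚ,
  (∀ x, x ≠ 0 → x ≠ 1 → B (1 - x) = - B x) →
  (∀ x, x ≠ 0 → x ≠ 1 → B x⁻¹ = - B x) →
  (∀ x w, x ≠ 0 → x ≠ 1 → w ≠ 0 → w ≠ 1 → x ≠ w →
    - B x + B w + B (x / w) - B ((x - 1) / (w - 1)) + B (x * (w - 1) / (w - x)) = 0) →
  ∀ x, x ≠ 0 → x ≠ 1 → B x = 0

/-- HOM: Euclidean descent. -/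
def StmHOM : Prop := ∀ (R K : Type) [CommRing R] [IsDomain R] [Field K] (D : RD R K),
  LocFin K → ∀ φ : R → ℚ,
  (∀ b ∈ D.S, ∀ c ∈ D.S, D.Adm b c → φ (D.rep (D.ρ b * D.ρ c)) = φ b + φ c) →
  ∀ c ∈ D.S, φ c = 0

/-- the relation coming from `P y = A₁ - A₂`. -/
def PR {R K W : Type} [CommRing R] [IsDomain R] [Field K] [AddCommGroup W] (D : RD R K)
    (L : R → W) (ω : W →ₗ[ℤ] W →ₗ[ℤ] ℚ) (π : W →ₗ[ℤ] ℚ) : Prop :=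
  ∀ A₁ ∈ Submonoid.closure D.S, ∀ A₂ ∈ Submonoid.closure D.S, ∀ y ∈ Submonoid.closure D.S,
    A₁ - A₂ = D.p * y →
    π (L A₁) - π (L A₂) = 2 * (ω (L y) (L A₂) - ω (L y) (L A₁) - ω (L A₁) (L A₂))

/-- FIVE: (5T1), (Z4) and the five term relation of `B(x) = ω(rep x, 1 - rep x)`. -/
def StmFIVE : Prop := ∀ (R K W : Type) [CommRing R] [IsDomain R] [Field K] [AddCommGroup W]
  (D : RD R K) (L : R → W), IsLog L → ∀ (ω : W →ₗ[ℤ] W →ₗ[ℤ] ℚ) (π : W →ₗ[ℤ] ℚ),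
  (∀ a b, ω a b = - ω b a) → (∀ a w, a ≠ 0 → ω (L (-a)) w = ω (L a) w) → PR D L ω π →
  (∀ b ∈ D.S, ∀ c ∈ D.S, c - b ∈ D.S →
    sF ω (L b) (L (c - b)) (L c) =
      ω (L (D.rep (D.ρ b / D.ρ c))) (L (1 - D.rep (D.ρ b / D.ρ c)))) ∧
  (∀ x w, x ≠ 0 → x ≠ 1 → w ≠ 0 → w ≠ 1 → x ≠ w →
    - ω (L (D.rep x)) (L (1 - D.rep x)) + ω (L (D.rep w)) (L (1 - D.rep w))
    + ω (L (D.rep (x / w))) (L (1 - D.rep (x / w)))
    - ω (L (D.rep ((x - 1) / (w - 1)))) (L (1 - D.rep ((x - 1) / (w - 1))))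
    + ω (L (D.rep (x * (w - 1) / (w - x)))) (L (1 - D.rep (x * (w - 1) / (w - x)))) = 0)

/-- KAP: symmetric forms. -/
def StmKAP : Prop := ∀ (R K W : Type) [CommRing R] [IsDomain R] [Field K] [AddCommGroup W]
  (D : RD R K) (L : R → W), LocFin K → IsLog L → ∀ (κ : W →ₗ[ℤ] W →ₗ[ℤ] ℚ),
  (∀ a b, κ a b = κ b a) →
  (∀ A₁ ∈ Submonoid.closure D.S, ∀ A₂ ∈ Submonoid.closure D.S, ∀ y ∈ D.S,
    A₁ - A₂ = D.p * y → κ (L A₁ - L A₂) (L A₁ - L A₂) = 0) →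
  ∀ u ∈ D.S, ∀ v ∈ D.S, κ (L u) (L v) = 0

/-- forms vanish on `S` if all cyclic sums do. -/
def AltZ {R W : Type} [CommRing R] [AddCommGroup W] (S : Set R) (L : R → W) : Prop :=
  ∀ ω : W →ₗ[ℤ] W →ₗ[ℤ] ℚ, (∀ a b, ω a b = - ω b a) →
    (∀ a w, a ≠ 0 → ω (L (-a)) w = ω (L a) w) →
    (∀ b ∈ S, ∀ d ∈ S, ∀ c ∈ S, b + d = c → sF ω (L b) (L d) (L c) = 0) →
    ∀ a ∈ S, ∀ b ∈ S, ω (L a) (L b) = 0

/-- POLY: the residue data at a monic irreducible polynomial of degree `n ≥ 1`. -/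
def StmPOLY : Prop := ∀ (k : Type) [Field k] (P : k[X]) [Fact (Irreducible P)], P.Monic →
  ∃ D : RD k[X] (AdjoinRoot P), D.p = P ∧ D.ρ = AdjoinRoot.mk P ∧
    D.S = {a | a ≠ 0 ∧ a.natDegree < P.natDegree} ∧
    (∀ a b, D.Adm a b ↔ a.natDegree + b.natDegree ≤ P.natDegree) ∧
    (∀ a : k[X], D.rep (AdjoinRoot.mk P a) = a %ₘ P)

/-- INT: the residue data at a prime number. -/
def StmINT : Prop := ∀ (p : ℕ) [Fact p.Prime],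
  ∃ D : RD ℤ (ZMod p), D.p = p ∧ D.ρ = Int.castRingHom (ZMod p) ∧
    D.S = {a | a ≠ 0 ∧ a.natAbs < p} ∧
    (∀ a b, D.Adm a b ↔ (a * b).natAbs < p) ∧
    (∀ x, D.rep x = ZMod.valMinAbs x)

/-- ALTP: polynomials of degree `< n`. -/
def StmALTP : Prop := ∀ (k : Type) [Field k] (ℓ : ℕ) [Fact ℓ.Prime] [Algebra (ZMod ℓ) k]
  [Algebra.IsAlgebraic (ZMod ℓ) k] (W : Type) [AddCommGroup W] (L : k[X] → W), IsLog L →
  (∀ c : k, c ≠ 0 → ∃ N : ℕ, 0 < N ∧ N • L (C c) = 0) →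
  ∀ n : ℕ, AltZ {a : k[X] | a ≠ 0 ∧ a.natDegree < n} L

/-- ALTI: integers of absolute value `< n`. -/
def StmALTI : Prop := ∀ (W : Type) [AddCommGroup W] (L : ℤ → W), IsLog L →
  ∀ n : ℕ, AltZ {a : ℤ | a ≠ 0 ∧ a.natAbs < n} L

/-- LOC: locally finite fields. -/
def StmLOC : Prop :=
  (∀ (ℓ : ℕ) [Fact ℓ.Prime] (K : Type) [Field K] [Algebra (ZMod ℓ) K]
    [Algebra.IsAlgebraic (ZMod ℓ) K], LocFin K) ∧
  (∀ (k : Type) [Field k] (ℓ : ℕ) [Fact ℓ.Prime] [Algebra (ZMod ℓ) k]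
    [Algebra.IsAlgebraic (ZMod ℓ) k] (P : k[X]) [Fact (Irreducible P)], LocFin (AdjoinRoot P)) ∧
  (∀ (p : ℕ) [Fact p.Prime], LocFin (ZMod p))

end Y775.W3
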